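import Mathlib

namespace Pool.Agent.H.MP_8a4945_al

variable {S : Type}

abbrev Rl (S : Type) := List S × List S

def src (r : Rl S) (d : Bool) : List S := cond d r.1 r.2

structure Sys (R : Set (Rl S)) (G T : Type) [Group G] [MulAction G T] where
  word : T → List S
  St : T → T → List S → Rl S → Bool → List S → Prop
  ne : ∀ r ∈ R, ∀ d, src r d ≠ []
  sym : ∀ {t t' a r d b}, St t t' a r d b → St t' t a r (!d) b
  fn : ∀ {t t' t'' a r d b}, St t t' a r d b → St t t'' a r d b → t' = t''
  ex : ∀ {t a r d b}, r ∈ R → word t = a ++ src r d ++ b → ∃ t', St t t' a r d b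
  wd : ∀ {t t' a r d b}, St t t' a r d b → r ∈ R ∧ word t = a ++ src r d ++ b
  sq0 : ∀ {t t1 t2 t3 t4 a r m r' b}, St t t1 a r true (m ++ r'.1 ++ b) → St t1 t2 (a ++ r.2 ++ m) r' true b →
    St t t3 (a ++ r.1 ++ m) r' true b → St t3 t4 a r true (m ++ r'.2 ++ b) → t2 = t4
  con : ∀ (o : T) (P : T → Prop), P o → (∀ t t' a r d b, St t t' a r d b → P t → P t') → ∀ t, P t
  sact : ∀ (g : G) {t t' a r d b}, St t t' a r d b → St (g • t) (g • t') a r d b
  wact : ∀ (g : G) t, word (g • t) = word t
  free : ∀ (g : G) (t : T), g • t = t → g = 1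
  tr : ∀ t t', word t = word t' → ∃ g : G, g • t = t'
  lift : ∀ (H : Type) [Group H] (σ : List S × Rl S × List S → H), (∀ a b c, ∀ r ∈ R, ∀ r' ∈ R,
    σ (a ++ r.2 ++ b, r', c) * σ (a, r, b ++ r'.1 ++ c) = σ (a, r, b ++ r'.2 ++ c) * σ (a ++ r.1 ++ b, r', c)) →
    ∃ ev : T → H, ∀ t t' a r b, St t t' a r true b → ev t' = σ (a, r, b) * ev t

variable {R : Set (Rl S)} {G T : Type} [Group G] [MulAction G T] (X : Sys R G T)

theorem Sys.wd' {t t' a r d b} (h : X.St t t' a r d b) : X.word t' = a ++ src r (!d) ++ b := (X.wd (X.sym h)).2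

theorem Sys.sym' {t t' a r d b} (h : X.St t t' a r (!d) b) : X.St t' t a r d b := by simpa using X.sym h

theorem Sys.sq {t t1 t2 t3 a r d m r' d' b} (h1 : X.St t t1 a r d (m ++ src r' d' ++ b))
    (h2 : X.St t1 t2 (a ++ src r (!d) ++ m) r' d' b) (h3 : X.St t t3 (a ++ src r d ++ m) r' d' b) :
    X.St t3 t2 a r d (m ++ src r' (!d') ++ b) := by
  have i := (X.wd h1).1
  have j := (X.wd h2).1
  obtain ⟨t4, h4⟩ := X.ex (t := t3) (a := a) (d := d) (b := m ++ src r' (!d') ++ b) i (by simp [X.wd' h3])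
  suffices t2 = t4 from this ▸ h4
  cases d <;> cases d'
  · obtain ⟨u, k⟩ := X.ex (t := t4) (a := a ++ r.1 ++ m) (d := true) (b := b) j (by simp [X.wd' h4, src])
    obtain ⟨v, l⟩ := X.ex (t := u) (a := a) (d := true) (b := m ++ r'.2 ++ b) i (by simp [X.wd' k, src])
    have e := X.sq0 (X.sym h4) (X.sym h3) k l
    subst e
    have e := X.fn (X.sym l) h1
    subst e
    exact X.fn h2 (X.sym k)
  · obtain ⟨v, l⟩ := X.ex (t := t2) (a := a) (d := true) (b := m ++ r'.2 ++ b) i (by simp [X.wd' h2, src])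
    have e := X.sq0 (X.sym h1) h3 h2 l
    subst e
    exact X.fn (X.sym l) h4
  · obtain ⟨v, l⟩ := X.ex (t := t4) (a := a ++ r.2 ++ m) (d := true) (b := b) j (by simp [X.wd' h4, src])
    have e := X.sq0 h4 l (X.sym h3) h1
    subst e
    exact X.fn h2 (X.sym l)
  · exact X.sq0 h1 h2 h3 h4

inductive Tm (S : Type)
  | ini (i : ℕ)
  | nil
  | cons (y t : Tm S)
  | nd (r : Rl S) (d : Bool) (t : Tm S) (j : ℕ)

def enc : List (Tm S) → Tm S
  | [] => .nil
  | y :: L => .cons y (enc L)

def dc : Tm S → List (Tm S)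
  | .cons y t => y :: dc t
  | _ => []

theorem dc_enc (L : List (Tm S)) : dc (enc L) = L := by induction L <;> simp [enc, dc, *]

def Tm.out (r : Rl S) (d : Bool) (L : List (Tm S)) (j : ℕ) : Tm S := .nd r d (enc L) j

theorem Tm.out_inj {r r' : Rl S} {d d' : Bool} {L L' : List (Tm S)} {j j' : ℕ} (h : Tm.out r d L j = .out r' d' L' j') :
    r = r' ∧ d = d' ∧ L = L' ∧ j = j' := by
  injection h with a b c e
  exact ⟨a, b, by rw [← dc_enc L, c, dc_enc], e⟩

def outs (r : Rl S) (d : Bool) (L : List (Tm S)) : List (Tm S) := (List.range (src r (!d)).length).map (Tm.out r d L)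

theorem outs_len (r : Rl S) (d : Bool) (L : List (Tm S)) : (outs r d L).length = (src r (!d)).length := by simp [outs]

theorem mem_outs {r : Rl S} {d : Bool} {L : List (Tm S)} {y : Tm S} :
    y ∈ outs r d L ↔ ∃ j < (src r (!d)).length, y = .out r d L j := by simp [outs, eq_comm]

inductive Red : Tm S → Prop
  | ini (i : ℕ) : Red (.ini i)
  | out (r d L j) : (∀ y ∈ L, Red y) → L.length = (src r d).length → (∀ L', L ≠ outs r (!d) L') → Red (.out r d L j)

open Classical in
noncomputable def stepf (r : Rl S) (d : Bool) (s : List (Tm S)) : List (Tm S) :=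
  if h : ∃ L, s = outs r (!d) L then h.choose else outs r d s

theorem stepf_dich (r : Rl S) (d : Bool) (s : List (Tm S)) : stepf r d s = outs r d s ∨ s = outs r (!d) (stepf r d s) := by
  unfold stepf
  split_ifs with h
  exacts [.inr h.choose_spec, .inl rfl]

theorem stepf_red {r : Rl S} (hr : ∀ d, src r d ≠ []) {d : Bool} {s : List (Tm S)} (h : ∀ y ∈ s, Red y)
    (hl : s.length = (src r d).length) :
    (∀ y ∈ stepf r d s, Red y) ∧ (stepf r d s).length = (src r (!d)).length ∧ stepf r (!d) (stepf r d s) = s := by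
  by_cases k : ∃ L, s = outs r (!d) L
  · have e : stepf r d s = k.choose := dif_pos k
    have e2 := k.choose_spec
    rw [← e] at e2
    generalize stepf r d s = L at *
    have : Red (.out r (!d) L 0) := h _ (e2 ▸ mem_outs.2 ⟨0, List.length_pos_iff.2 (hr _), rfl⟩)
    generalize e3 : Tm.out r (!d) L 0 = z at this
    cases this with
    | ini => cases e3
    | out _ _ _ _ a b c =>
      obtain ⟨rfl, rfl, rfl, -⟩ := Tm.out_inj e3
      exact ⟨a, b, by rw [stepf, dif_neg (not_exists.2 c), e2]⟩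
  · have e : stepf r d s = outs r d s := dif_neg k
    rw [e]
    refine ⟨fun y i => ?_, outs_len .., ?_⟩
    · obtain ⟨j, -, rfl⟩ := mem_outs.1 i
      exact .out _ _ _ _ h hl (not_exists.1 k)
    · have k2 : ∃ L, outs r d s = outs r (!!d) L := ⟨s, by simp⟩
      have := k2.choose_spec
      rw [stepf, dif_pos k2]
      have m : Tm.out r d s 0 ∈ outs r d s := mem_outs.2 ⟨0, List.length_pos_iff.2 (hr _), rfl⟩
      rw [this] at m
      obtain ⟨j, -, i⟩ := mem_outs.1 m
      exact (Tm.out_inj i).2.2.1.symm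

noncomputable def act (k : ℕ) (r : Rl S) (d : Bool) (ω : Stream' (Tm S)) : Stream' (Tm S) :=
  ω.take k ++ₛ (stepf r d ((ω.drop k).take (src r d).length) ++ₛ (ω.drop k).drop (src r d).length)

theorem act_eq {k : ℕ} {r : Rl S} {d : Bool} {A s : List (Tm S)} (ρ : Stream' (Tm S)) (h : A.length = k)
    (h' : s.length = (src r d).length) : act k r d (A ++ₛ (s ++ₛ ρ)) = A ++ₛ (stepf r d s ++ₛ ρ) := by
  subst h
  rw [act, Stream'.drop_append_stream, ← h', Stream'.drop_append_stream, Stream'.take_append_of_le_length _ _ _ le_rfl,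
    Stream'.take_append_of_le_length _ _ _ le_rfl, List.take_length, List.take_length]

theorem dec {α : Type} (ω : Stream' α) (k : ℕ) : ∃ A ρ, A.length = k ∧ ω = A ++ₛ ρ :=
  ⟨_, _, Stream'.length_take .., (Stream'.append_take_drop k ω).symm⟩

theorem all_app {α : Type} {P : α → Prop} {A : List α} {ρ : Stream' α} :
    (∀ n, P ((A ++ₛ ρ).get n)) ↔ (∀ y ∈ A, P y) ∧ ∀ n, P (ρ.get n) := by
  refine ⟨fun h => ⟨fun y i => ?_, fun n => by simpa using h (A.length + n)⟩, fun h n => ?_⟩
  · obtain ⟨n, j, rfl⟩ := List.getElem_of_mem i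
    simpa [Stream'.get_append_left _ _ _ j] using h n
  · by_cases i : n < A.length
    · rw [Stream'.get_append_left _ _ _ i]
      exact h.1 _ (List.getElem_mem i)
    · obtain ⟨m, rfl⟩ := Nat.exists_eq_add_of_le (not_lt.1 i)
      simpa using h.2 m

theorem act_red {r : Rl S} (hr : ∀ d, src r d ≠ []) (k : ℕ) (d : Bool) {ω : Stream' (Tm S)} (h : ∀ n, Red (ω.get n)) :
    (∀ n, Red ((act k r d ω).get n)) ∧ act k r (!d) (act k r d ω) = ω := by
  obtain ⟨A, ρ, i, rfl⟩ := dec ω k
  obtain ⟨s, ρ, j, rfl⟩ := dec ρ (src r d).length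
  simp only [all_app] at h
  obtain ⟨a, b, c⟩ := stepf_red hr h.2.1 j
  rw [act_eq _ i j, act_eq _ i b, c]
  simp only [all_app]
  exact ⟨⟨h.1, a, h.2.2⟩, trivial⟩

noncomputable def prm (k : ℕ) {r : Rl S} (hr : ∀ d, src r d ≠ []) : Equiv.Perm {ω : Stream' (Tm S) // ∀ n, Red (ω.get n)} where
  toFun ω := ⟨act k r true ω, (act_red hr k _ ω.2).1⟩
  invFun ω := ⟨act k r false ω, (act_red hr k _ ω.2).1⟩
  left_inv ω := Subtype.ext (act_red hr k true ω.2).2
  right_inv ω := Subtype.ext (act_red hr k false ω.2).2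

structure Sys.Chart (o : T) (N : T → List (Tm S)) : Prop where
  base : N o = (List.range (X.word o).length).map .ini
  len : ∀ t, (N t).length = (X.word t).length
  step : ∀ {t t' a r d b A s B}, X.St t t' a r d b → N t = A ++ s ++ B → A.length = a.length →
    s.length = (src r d).length → N t' = A ++ stepf r d s ++ B

theorem Sys.chart (o : T) : ∃ N, X.Chart o N := by
  classical
  obtain ⟨ev, h⟩ := X.lift _ (fun e => if h : e.2.1 ∈ R then prm e.1.length (X.ne _ h) else 1) fun a b c r i r' j => by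
    simp only [dif_pos i, dif_pos j]
    ext1 ⟨ω, h⟩
    obtain ⟨A, ρ, e1, rfl⟩ := dec ω a.length
    obtain ⟨s, ρ, e2, rfl⟩ := dec ρ (src r true).length
    obtain ⟨M, ρ, e3, rfl⟩ := dec ρ b.length
    obtain ⟨s', ρ, e4, rfl⟩ := dec ρ (src r' true).length
    have h' := h
    simp only [all_app] at h'
    have l := (stepf_red (X.ne r i) h'.2.1 e2).2.1
    refine Subtype.ext ?_
    change act _ r' true (act _ r true _) = act _ r true (act _ r' true _)
    have k1 := act_eq (A := A ++ stepf r true s ++ M) (k := (a ++ r.2 ++ b).length) ρ (by simp [e1, e3, l, src]) e4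
    have k2 := act_eq (A := A ++ s ++ M) (k := (a ++ r.1 ++ b).length) ρ (by simp [e1, e3, e2, src]) e4
    simp only [Stream'.append_append_stream] at k1 k2
    rw [act_eq _ e1 e2, k1, k2, act_eq _ e1 e2]
  let ω : T → {ω : Stream' (Tm S) // ∀ n, Red (ω.get n)} := fun t => ev t ((ev o)⁻¹ ⟨Tm.ini, fun n => .ini n⟩)
  have k : ∀ {t t' a r d b}, X.St t t' a r d b → (ω t').1 = act a.length r d (ω t).1 := fun {t t' a r d b} i => by
    have j := (X.wd i).1
    cases d
    · have := h _ _ _ _ _ (X.sym i)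
      simp only [dif_pos j] at this
      have e : (ω t).1 = act a.length r true (ω t').1 := by simp only [ω, this]; rfl
      rw [e]
      exact (act_red (X.ne r j) _ true (ω t').2).2.symm
    · have := h _ _ _ _ _ i
      simp only [dif_pos j] at this
      simp only [ω, this]; rfl
  refine ⟨fun t => (ω t).1.take (X.word t).length, ?_, fun t => Stream'.length_take .., fun {t t' a r d b A s B} i e e1 e2 => ?_⟩
  · simp only [ω, Equiv.Perm.coe_inv, Equiv.apply_symm_apply]
    exact List.ext_getElem (by simp) fun n _ _ => by simp; rfl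
  · have := Stream'.append_take_drop (X.word t).length (ω t).1
    have r1 := (ω t).2
    have l0 := congrArg List.length e
    rw [e] at this
    rw [← this] at r1
    simp only [Stream'.append_append_stream, all_app] at r1 this
    have l := (stepf_red (X.ne r (X.wd i).1) r1.2.1 e2).2.1
    have l1 : (A ++ stepf r d s ++ B).length = (X.word t').length := by
      simp only [Stream'.length_take, (X.wd i).2, X.wd' i, List.length_append] at l0 ⊢
      omega
    rw [k i, ← this, act_eq _ e1 e2, ← Stream'.append_append_stream, ← Stream'.append_append_stream, ← l1,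
      Stream'.take_append_of_le_length _ _ _ le_rfl, List.take_length]

end Pool.Agent.H.MP_8a4945_al
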