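import Pool.Agent.H.MP_8a4945_al.A

namespace Pool.Agent.H.MP_8a4945_al

variable {S : Type}

structure Ce (S : Type) where
  r : Rl S
  d : Bool
  L : List (Tm S)

def Ce.o (c : Ce S) (j : ℕ) : Tm S := .out c.r c.d c.L j

def Ce.os (c : Ce S) : List (Tm S) := outs c.r c.d c.L

inductive In (c : Ce S) : Tm S → Prop
  | here (j) : In c (c.o j)
  | deep (c' : Ce S) (j y) : y ∈ c'.L → In c y → In c (c'.o j)

def cells (W : List (Tm S)) : Set (Ce S) := {c | ∃ y ∈ W, In c y}

open Classical in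
noncomputable def lp : Tm S → Tm S
  | .nd r d (.cons y t) 0 => if enc (dc t) = t then lp y else .nd r d (.cons y t) 0
  | y => y

open Classical in
noncomputable def dp : Tm S → ℕ
  | .nd _ _ (.cons y t) 0 => if enc (dc t) = t then dp y + 1 else 0
  | _ => 0

theorem lt_enc {y : Tm S} {L : List (Tm S)} (h : y ∈ L) : sizeOf y < sizeOf (enc L) := by
  induction L with
  | nil => simp at h
  | cons z L ih =>
    rcases List.mem_cons.1 h with rfl | h
    · simp [enc]; omega
    · have := ih h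
      simp [enc]; omega

theorem Ce.o_inj {c c' : Ce S} {i j : ℕ} (h : c.o i = c'.o j) : c = c' ∧ i = j := by
  cases c; cases c'; simpa [and_assoc] using Tm.out_inj h

theorem in_iff {c c' : Ce S} {j : ℕ} : In c (c'.o j) ↔ c = c' ∨ c ∈ cells c'.L := by
  refine ⟨fun h => ?_, fun h => ?_⟩
  · generalize e : c'.o j = z at h
    cases h with
    | here => exact .inl (Ce.o_inj e).1.symm
    | deep c'' k y i l => exact .inr ⟨y, (Ce.o_inj e).1 ▸ i, l⟩
  · rcases h with rfl | ⟨y, i, l⟩
    exacts [.here _, .deep _ _ _ i l]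

theorem not_in_ini {c : Ce S} {i : ℕ} : ¬ In c (.ini i) := fun h => by
  generalize e : Tm.ini i = z at h
  cases h <;> cases e

theorem lt_o (c : Ce S) (j : ℕ) : sizeOf (enc c.L) < sizeOf (c.o j) := by simp [Ce.o, Tm.out]; omega

theorem In.lt {c : Ce S} {y : Tm S} (h : In c y) : sizeOf (enc c.L) < sizeOf y := by
  induction h with
  | here j => exact lt_o c j
  | deep c' j y i _ ih => exact ih.trans ((lt_enc i).trans (lt_o c' j))

theorem In.cl {c c' : Ce S} {y : Tm S} (h : In c y) (k : c' ∈ cells c.L) : In c' y := by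
  induction h with
  | here j => exact in_iff.2 (.inr k)
  | deep c'' j y i _ ih => exact .deep _ _ _ i ih

theorem cells_cl {W : List (Tm S)} {c c' : Ce S} {j : ℕ} (h : c ∈ cells W) (k : c'.o j ∈ c.L) : c' ∈ cells W :=
  let ⟨y, i, l⟩ := h; ⟨y, i, l.cl ⟨_, k, .here j⟩⟩

theorem cells_o {W : List (Tm S)} {c : Ce S} {j : ℕ} (k : c.o j ∈ W) : c ∈ cells W := ⟨_, k, .here j⟩

theorem cells_app (A B : List (Tm S)) : cells (A ++ B) = cells A ∪ cells B := by
  ext c; simp [cells, or_and_right, exists_or]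

theorem mem_os {c : Ce S} {y : Tm S} : y ∈ c.os ↔ ∃ j < (src c.r (!c.d)).length, y = c.o j := mem_outs

theorem cells_os {c : Ce S} (h : src c.r (!c.d) ≠ []) : cells c.os = insert c (cells c.L) := by
  ext c'
  refine ⟨fun ⟨y, i, l⟩ => ?_, fun k => ⟨_, mem_os.2 ⟨0, List.length_pos_iff.2 h, rfl⟩, in_iff.2 k⟩⟩
  obtain ⟨j, -, rfl⟩ := mem_os.1 i
  exact in_iff.1 l

theorem lp_zero {c : Ce S} {y : Tm S} {L : List (Tm S)} (h : c.L = y :: L) : lp (c.o 0) = lp y ∧ dp (c.o 0) = dp y + 1 := by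
  simp [Ce.o, Tm.out, enc, h, lp, dp, dc_enc]

theorem lp_succ (c : Ce S) (j : ℕ) : lp (c.o (j + 1)) = c.o (j + 1) := by simp [Ce.o, Tm.out, lp]

theorem lp_ini (i : ℕ) : lp (.ini i : Tm S) = .ini i := by simp [lp]

theorem lp_ind (P : Tm S → Prop) (h0 : ∀ y, lp y = y → dp y = 0 → P y)
    (h1 : ∀ (c : Ce S) y L, c.L = y :: L → P y → P (c.o 0)) (y : Tm S) : P y := by
  induction y using lp.induct with
  | case1 r d y t h ih => exact h ▸ h1 ⟨r, d, y :: dc t⟩ y _ rfl ih
  | case2 r d y t h => exact h0 _ (by simp [lp, h]) (by simp [dp, h])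
  | case3 y h => exact h0 y (lp.eq_2 y h) (dp.eq_2 y h)

theorem In.of_lp {c : Ce S} {y : Tm S} : In c (lp y) → In c y := by
  induction y using lp_ind with
  | h0 y h => exact fun k => h ▸ k
  | h1 c' y L h ih => exact fun k => .deep _ _ y (by simp [h]) (ih ((lp_zero h).1 ▸ k))

theorem bot {y : Tm S} : lp y ≠ y → ∃ c, In c y ∧ lp y ∈ c.L := by
  induction y using lp_ind with
  | h0 y h => exact fun k => (k h).elim
  | h1 c y L h ih =>
    intro _
    rw [(lp_zero h).1]
    by_cases k : lp y = y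
    · exact ⟨c, .here 0, by simp [h, k]⟩
    · obtain ⟨c', i, j⟩ := ih k
      exact ⟨c', .deep _ _ y (by simp [h]) i, j⟩

structure Inv (W : List (Tm S)) : Prop where
  nd : (W.map lp).Nodup
  i2 : ∀ c ∈ cells W, ∀ y ∈ c.L, y ∉ W
  i5 : ∀ c ∈ cells W, ∀ c' ∈ cells W, ∀ y ∈ c.L, y ∈ c'.L → c = c'
  fin : (cells W).Finite

theorem Inv.up {A B : List (Tm S)} {c : Ce S} (h : Inv (A ++ c.L ++ B)) (h1 : c.L ≠ []) (h2 : src c.r (!c.d) ≠ []) :
    Inv (A ++ c.os ++ B) ∧ c ∉ cells (A ++ c.L ++ B) ∧ cells (A ++ c.os ++ B) = insert c (cells (A ++ c.L ++ B)) := by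
  obtain ⟨y, L, e⟩ := List.exists_cons_of_ne_nil h1
  have n : c ∉ cells (A ++ c.L ++ B) := fun k => h.i2 c k y (by simp [e]) (by simp [e])
  have k : cells (A ++ c.os ++ B) = insert c (cells (A ++ c.L ++ B)) := by
    simp only [cells_app, cells_os h2, Set.insert_union, Set.union_insert]
  have nd := h.nd.of_map _
  refine ⟨⟨?_, fun c' i z j l => ?_, fun c1 i1 c2 i2 z j1 j2 => ?_, k ▸ h.fin.insert c⟩, n, k⟩
  · obtain ⟨m, hm⟩ := Nat.exists_eq_succ_of_ne_zero (List.length_pos_iff.2 h2).ne'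
    have e1 : c.os.map lp = lp y :: (List.range m).map fun j => c.o (j + 1) := by
      rw [Ce.os, outs, hm, List.range_succ_eq_map, List.map_map, List.map_cons, List.map_map]
      exact congrArg₂ _ (lp_zero e).1 (List.map_congr_left fun j _ => lp_succ c j)
    have f : ∀ j, ∀ z ∈ A ++ c.L ++ B, lp z ≠ c.o j := fun j z i l => n ⟨z, i, In.of_lp (l ▸ .here j)⟩
    have nm : ((List.range m).map fun j => c.o (j + 1)).Nodup :=
      List.nodup_range.map fun i j l => by simpa using (Ce.o_inj l).2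
    have := h.nd
    simp only [e, e1, List.map_append, List.map_cons, List.nodup_append, List.nodup_cons, List.mem_map, List.mem_cons,
      List.mem_append] at this f ⊢
    grind
  · rcases k ▸ i with rfl | i
    · simp only [List.mem_append, mem_os] at l
      rcases l with (l | ⟨n, -, rfl⟩) | l
      · simp only [List.nodup_append, List.mem_append] at nd; grind
      · exact (lt_enc j).not_gt (lt_o _ n)
      · simp only [List.nodup_append, List.mem_append] at nd; grind
    · simp only [List.mem_append, mem_os] at l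
      rcases l with (l | ⟨m, -, rfl⟩) | l
      exacts [h.i2 c' i z j (by simp [l]), n (cells_cl i j), h.i2 c' i z j (by simp [l])]
  · rcases k ▸ i1 with rfl | i1 <;> rcases k ▸ i2 with rfl | i2
    exacts [rfl, (h.i2 _ i2 z j2 (by simp [j1])).elim, (h.i2 _ i1 z j1 (by simp [j2])).elim, h.i5 _ i1 _ i2 z j1 j2]

theorem split_len {α : Type} {a b a1 b1 : List α} (h : a ++ b = a1 ++ b1) (l : a.length ≤ a1.length) :
    ∃ m, a1 = a ++ m ∧ b = m ++ b1 := by
  rcases List.append_eq_append_iff.1 h with h | ⟨m, rfl, rfl⟩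
  · exact h
  · obtain rfl : m = [] := by simpa using l
    exact ⟨[], by simp⟩

theorem disj {α : Type} {A s B A1 s1 B1 : List α} (h : A ++ s ++ B = A1 ++ s1 ++ B1) (l : A.length ≤ A1.length)
    (h1 : s ≠ []) (h2 : s1 ≠ []) (k : ∀ y ∈ s, y ∉ s1) : ∃ M, A1 = A ++ s ++ M ∧ B = M ++ s1 ++ B1 := by
  by_cases i : (A ++ s).length ≤ A1.length
  · simpa using split_len (h.trans (List.append_assoc ..)) i
  · obtain ⟨m, rfl, e⟩ := split_len (((List.append_assoc ..).symm.trans h).trans (List.append_assoc ..)) l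
    obtain ⟨n, rfl, e'⟩ := split_len e.symm (by simp at i; omega)
    obtain ⟨y, n, rfl⟩ := List.exists_cons_of_ne_nil (show n ≠ [] by rintro rfl; simp at i)
    obtain ⟨z, s1, rfl⟩ := List.exists_cons_of_ne_nil h2
    simp only [List.cons_append, List.cons.injEq] at e'
    exact (k y (by simp) (by simp [e'.1])).elim

theorem pos_eq {α : Type} {A s B A1 B1 : List α} (h : A ++ s ++ B = A1 ++ s ++ B1) (h1 : s ≠ []) (nd : (A ++ s ++ B).Nodup) :
    A.length = A1.length := by
  obtain ⟨y, s, rfl⟩ := List.exists_cons_of_ne_nil h1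
  have n2 := h ▸ nd
  simp only [List.append_assoc, List.cons_append] at h nd n2
  rw [((List.append_cons_inj_of_notMem (by simp only [List.nodup_append, List.mem_cons] at nd; grind)
    (by simp only [List.nodup_append, List.mem_cons] at n2; grind)).1 h).1]

variable {R : Set (Rl S)} {G T : Type} [Group G] [MulAction G T] {X : Sys R G T} {o : T} {N : T → List (Tm S)}

structure Sys.Up (X : Sys R G T) (N : T → List (Tm S)) (t t' : T) (a : List S) (c : Ce S) (b : List S) (A B : List (Tm S)) : Prop where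
  st : X.St t t' a c.r c.d b
  l1 : A.length = a.length
  l2 : c.L.length = (src c.r c.d).length
  e1 : N t = A ++ c.L ++ B
  e2 : N t' = A ++ c.os ++ B
  f : stepf c.r c.d c.L = c.os

theorem Sys.Up.n1 {t t' a c b A B} (h : X.Up N t t' a c b A B) : c.L ≠ [] :=
  List.length_pos_iff.1 (h.l2 ▸ List.length_pos_iff.2 (X.ne _ (X.wd h.st).1 _))

theorem Sys.Up.n2 {t t' a c b A B} (h : X.Up N t t' a c b A B) : src c.r (!c.d) ≠ [] := X.ne _ (X.wd h.st).1 _

theorem Sys.Up.n3 {t t' a c b A B} (h : X.Up N t t' a c b A B) : c.os ≠ [] :=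
  List.length_pos_iff.1 ((outs_len ..).symm ▸ List.length_pos_iff.2 h.n2)

namespace Sys.Chart
variable (hN : X.Chart o N)
include hN

theorem mkup {t t' a c b A B} (h : X.St t t' a c.r c.d b) (l1 : A.length = a.length) (l2 : c.L.length = (src c.r c.d).length)
    (e : N t = A ++ c.L ++ B) (f : stepf c.r c.d c.L = c.os) : X.Up N t t' a c b A B :=
  ⟨h, l1, l2, e, f ▸ hN.step h e l1 l2, f⟩

theorem dec {t t' a r d b} (h : X.St t t' a r d b) : ∃ A s B, A.length = a.length ∧ s.length = (src r d).length ∧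
    B.length = b.length ∧ (stepf r d s).length = (src r (!d)).length ∧ N t = A ++ s ++ B ∧ N t' = A ++ stepf r d s ++ B := by
  have l := hN.len t
  have l' := hN.len t'
  rw [(X.wd h).2] at l
  have e : N t = (N t).take a.length ++ ((N t).drop a.length).take (src r d).length ++ ((N t).drop a.length).drop (src r d).length := by
    rw [List.append_assoc, List.take_append_drop, List.take_append_drop]
  simp only [List.length_append] at l
  have l1 : ((N t).take a.length).length = a.length := by simp; omega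
  have l2 : (((N t).drop a.length).take (src r d).length).length = (src r d).length := by simp; omega
  have e' := hN.step h e l1 l2
  refine ⟨_, _, _, l1, l2, by simp; omega, ?_, e, e'⟩
  rw [e', X.wd' h] at l'
  simp only [List.length_append, List.length_drop] at l'
  omega

theorem dich {t t' a r d b} (h : X.St t t' a r d b) :
    (∃ L A B, X.Up N t t' a ⟨r, d, L⟩ b A B) ∨ ∃ L A B, X.Up N t' t a ⟨r, !d, L⟩ b A B := by
  obtain ⟨A, s, B, l1, l2, -, l3, e1, e2⟩ := hN.dec h
  rcases stepf_dich r d s with k | k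
  · exact .inl ⟨s, A, B, hN.mkup h l1 l2 e1 k⟩
  · have := hN.step (X.sym h) e2 l1 l3
    rw [e1, List.append_left_inj, List.append_right_inj] at this
    exact .inr ⟨_, A, B, hN.mkup (X.sym h) l1 l3 e2 (this.symm.trans k)⟩

end Sys.Chart

inductive Sys.Fw (X : Sys R G T) (o : T) (N : T → List (Tm S)) : T → Prop
  | base : Fw X o N o
  | up {t t' a c b A B} : Fw X o N t → X.Up N t t' a c b A B → Fw X o N t'

def Mx (c : Ce S) (W : List (Tm S)) : Prop := ∀ c' ∈ cells W, ∀ y ∈ c.os, y ∉ c'.L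

namespace Sys.Chart
variable (hN : X.Chart o N)
include hN

theorem cells_base : cells (N o) = ∅ := by
  ext c
  simp only [hN.base, cells, List.mem_map, Set.mem_ofPred_eq, Set.mem_empty_iff_false, iff_false]
  rintro ⟨_, ⟨i, -, rfl⟩, h⟩
  exact not_in_ini h

theorem inv_fw {t} (h : X.Fw o N t) : Inv (N t) := by
  induction h with
  | base =>
    refine ⟨?_, by simp [hN.cells_base], by simp [hN.cells_base], by simp [hN.cells_base]⟩
    rw [hN.base, List.map_map]
    exact List.nodup_range.map fun i j h => by simpa [lp_ini] using h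
  | up _ h ih => exact h.e2 ▸ ((h.e1 ▸ ih).up h.n1 h.n2).1

theorem last {t} (h : X.Fw o N t) {c} (hc : c ∈ cells (N t)) (hm : Mx c (N t)) :
    ∃ t0 a b A B, X.Fw o N t0 ∧ X.Up N t0 t a c b A B := by
  induction h with
  | base => simp [hN.cells_base] at hc
  | @up t1 t2 a1 c1 b1 A1 B1 f1 u1 ih =>
    have k := ((u1.e1 ▸ hN.inv_fw f1).up u1.n1 u1.n2).2.2
    rw [← u1.e1, ← u1.e2] at k
    rcases k ▸ hc with rfl | hc
    · exact ⟨_, _, _, _, _, f1, u1⟩
    obtain ⟨t0, a, b, A, B, f0, u0⟩ := ih hc fun c' i => hm c' (k ▸ .inr i)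
    have e := u0.e2.symm.trans u1.e1
    have w := (X.wd' u0.st).symm.trans (X.wd u1.st).2
    have dj : ∀ y ∈ c.os, y ∉ c1.L := hm c1 (k ▸ .inl rfl)
    have l1 := u0.l1
    have l2 := u1.l1
    have l3 : c.os.length = _ := outs_len ..
    have l4 : c1.os.length = _ := outs_len ..
    have l5 := u0.l2
    have l6 := u1.l2
    rcases le_total A.length A1.length with l | l
    · obtain ⟨M, rfl, rfl⟩ := disj e l u0.n3 u1.n1 dj
      obtain ⟨m, rfl, w'⟩ := split_len (w.trans (List.append_assoc ..)) (by simp at l2 ⊢; omega)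
      rw [← List.append_assoc] at w'
      subst w'
      obtain ⟨t3, s3⟩ := X.ex (t := t0) (a := a ++ src c.r c.d ++ m) (d := c1.d) (b := b1) (X.wd u1.st).1 (by simp [(X.wd u0.st).2])
      have u3 := hN.mkup (A := A ++ c.L ++ M) (B := B1) s3 (by simp at l2 ⊢; omega) l6 (by simp [u0.e1]) u1.f
      exact ⟨t3, _, _, A, M ++ c1.os ++ B1, f0.up u3, hN.mkup (X.sq u0.st u1.st s3) l1 l5 (by simp [u3.e2]) u0.f⟩
    · obtain ⟨M, rfl, rfl⟩ := disj e.symm l u1.n1 u0.n3 fun y i j => dj y j i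
      obtain ⟨m, rfl, w'⟩ := split_len (w.symm.trans (List.append_assoc ..)) (by simp at l1 ⊢; omega)
      rw [← List.append_assoc] at w'
      subst w'
      obtain ⟨t3, s3⟩ := X.ex (t := t0) (a := a1) (d := c1.d) (b := m ++ src c.r c.d ++ b) (X.wd u1.st).1 (by simp [(X.wd u0.st).2])
      have u3 := hN.mkup (A := A1) (B := M ++ c.L ++ B) s3 l2 l6 (by simp [u0.e1]) u1.f
      obtain ⟨t4, s4⟩ := X.ex (t := t3) (a := a1 ++ src c1.r (!c1.d) ++ m) (d := c.d) (b := b) (X.wd u0.st).1 (by simp [X.wd' s3])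
      obtain rfl := X.fn (X.sq s3 s4 u0.st) u1.st
      exact ⟨t3, _, _, A1 ++ c1.os ++ M, B, f0.up u3, hN.mkup s4 (by simp at l1 ⊢; omega) l5 (by simp [u3.e2]) u0.f⟩

theorem up_eq {t0 t1 t a b A B a' b' A' B' c} (i : Inv (N t)) (u : X.Up N t0 t a c b A B) (u' : X.Up N t1 t a' c b' A' B') :
    t0 = t1 := by
  have l := pos_eq (u.e2.symm.trans u'.e2) u.n3 (u.e2 ▸ i.nd.of_map _)
  have w := (X.wd' u.st).symm.trans (X.wd' u'.st)
  rw [List.append_assoc, List.append_assoc] at w
  obtain ⟨rfl, w'⟩ := List.append_inj w (by rw [← u.l1, l, u'.l1])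
  obtain rfl := List.append_cancel_left w'
  exact X.fn (X.sym u.st) (X.sym u'.st)

theorem fw (t : T) : X.Fw o N t := by
  refine X.con o _ .base (fun t t' a r d b h f => ?_) t
  rcases hN.dich h with ⟨L, A, B, u⟩ | ⟨L, A, B, u⟩
  · exact f.up u
  · have i := hN.inv_fw f
    obtain ⟨t0, a, b, A, B, f0, u0⟩ := hN.last f (c := ⟨r, !d, L⟩) (by simp [u.e2, cells_app, cells_os u.n2])
      fun c' k y j l => i.i2 c' k y l (by simp [u.e2, j])
    exact hN.up_eq i u0 u ▸ f0

theorem inv (t : T) : Inv (N t) := hN.inv_fw (hN.fw t)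

theorem up_c {t t' a c b A B} (u : X.Up N t t' a c b A B) : c ∉ cells (N t) ∧ cells (N t') = insert c (cells (N t)) :=
  u.e2 ▸ u.e1 ▸ ((u.e1 ▸ hN.inv t).up u.n1 u.n2).2

theorem inj {t t' : T} (h : cells (N t) = cells (N t')) : t = t' := by
  have f := hN.fw t
  induction f generalizing t' with
  | base =>
    cases hN.fw t' with
    | base => rfl
    | up _ u => exact absurd h.symm (by rw [hN.cells_base, (hN.up_c u).2]; exact (Set.insert_nonempty ..).ne_empty)
  | @up t0 t a c b A B _ u ih =>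
    obtain ⟨t1, a', b', A', B', -, u'⟩ := hN.last (hN.fw t') (c := c) (h ▸ (hN.up_c u).2 ▸ .inl rfl)
      fun c' k y j l => (hN.inv t).i2 c' (h ▸ k) y l (by simp [u.e2, j])
    obtain rfl : t0 = t1 := ih (by
      rw [← Set.insert_sdiff_self_of_notMem (hN.up_c u).1, ← (hN.up_c u).2, h, (hN.up_c u').2,
        Set.insert_sdiff_self_of_notMem (hN.up_c u').1])
    have l := pos_eq (u.e1.symm.trans u'.e1) u.n1 (u.e1 ▸ (hN.inv t0).nd.of_map _)
    have w := (X.wd u.st).2.symm.trans (X.wd u'.st).2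
    rw [List.append_assoc, List.append_assoc] at w
    obtain ⟨rfl, w'⟩ := List.append_inj w (by rw [← u.l1, l, u'.l1])
    obtain rfl := List.append_cancel_left w'
    exact X.fn u.st u'.st

theorem injN {t t' : T} (h : N t = N t') : t = t' := hN.inj (by rw [h])

theorem rm (P : Ce S → Prop) {t : T} (hP : ∀ c j, ∀ c' ∈ cells (N t), c.o j ∈ c'.L → P c → P c') (h : ∃ c ∈ cells (N t), P c) :
    ∃ c, P c ∧ ∃ t0 a b A B, X.Up N t0 t a c b A B := by
  obtain ⟨c, ⟨h1, h2⟩, h3⟩ := Set.exists_max_image {c | c ∈ cells (N t) ∧ P c} (fun c => sizeOf (enc c.L))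
    ((hN.inv t).fin.subset fun _ i => i.1) h
  obtain ⟨t0, a, b, A, B, -, u⟩ := hN.last (hN.fw t) h1 fun c' i y j l => by
    obtain ⟨m, -, rfl⟩ := mem_os.1 j
    exact ((lt_o c m).trans (lt_enc l)).not_ge (h3 c' ⟨i, hP c m c' i l h2⟩)
  exact ⟨c, h2, t0, a, b, A, B, u⟩

theorem rm' {t u : T} (h : ¬ cells (N t) ⊆ cells (N u)) : ∃ c ∉ cells (N u), ∃ t0 a b A B, X.Up N t0 t a c b A B :=
  hN.rm _ (fun _ _ _ _ i j k => j (cells_cl k i)) (Set.not_subset.1 h)

end Sys.Chart

def dl (N : T → List (Tm S)) (t u : T) : Set (Ce S) := symmDiff (cells (N t)) (cells (N u))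

theorem dl_comm (t u : T) : dl N t u = dl N u t := symmDiff_comm ..

inductive Sys.Pth (X : Sys R G T) : ℕ → T → T → Prop
  | z (t) : Pth X 0 t t
  | s {n t t' u a r d b} : X.St t t' a r d b → Pth X n t' u → Pth X (n + 1) t u

theorem Sys.Pth.snoc {n t u u' a r d b} (h : X.Pth n t u) (k : X.St u u' a r d b) : X.Pth (n + 1) t u' := by
  induction h with
  | z => exact .s k (.z _)
  | s i _ ih => exact .s i (ih k)

theorem Sys.Pth.act (g : G) {n t u} (h : X.Pth n t u) : X.Pth n (g • t) (g • u) := by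
  induction h with
  | z => exact .z _
  | s i _ ih => exact .s (X.sact g i) ih

noncomputable def Sys.di (X : Sys R G T) (t u : T) : ℕ := sInf {n | X.Pth n t u}

theorem Sys.di_act (g : G) (t u : T) : X.di (g • t) (g • u) = X.di t u :=
  congrArg sInf (Set.ext fun _ => ⟨fun h => by simpa using h.act g⁻¹, fun h => h.act g⟩)

namespace Sys.Chart
variable (hN : X.Chart o N)
include hN

theorem dl_fin (t u : T) : (dl N t u).Finite := (hN.inv t).fin.symmDiff (hN.inv u).fin

theorem dl_up {t0 t a c b A B} (h : X.Up N t0 t a c b A B) (u : T) :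
    (c ∉ cells (N u) → (dl N t u).ncard = (dl N t0 u).ncard + 1) ∧ (c ∈ cells (N u) → (dl N t0 u).ncard = (dl N t u).ncard + 1) := by
  obtain ⟨i, j⟩ := hN.up_c h
  refine ⟨fun k => ?_, fun k => ?_⟩
  · rw [← Set.ncard_insert_of_notMem (a := c) (by simp [dl, Set.mem_symmDiff, i, k]) (hN.dl_fin ..)]
    congr 1; ext x; simp only [dl, Set.mem_symmDiff, j, Set.mem_insert_iff]; grind
  · rw [← Set.ncard_insert_of_notMem (a := c) (by simp [dl, Set.mem_symmDiff, j, k]) (hN.dl_fin ..)]
    congr 1; ext x; simp only [dl, Set.mem_symmDiff, j, Set.mem_insert_iff]; grind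

theorem geo (P : T → T → Prop) (h0 : ∀ t, P t t) (hs : ∀ t u, P t u → P u t)
    (h1 : ∀ t0 t a c b A B u, X.Up N t0 t a c b A B → c ∉ cells (N u) → P t0 u → P t u) (t u : T) : P t u := by
  induction e : (dl N t u).ncard generalizing t u with
  | zero =>
    obtain rfl : t = u := hN.inj (symmDiff_eq_bot.1 ((Set.ncard_eq_zero (hN.dl_fin ..)).1 e))
    exact h0 t
  | succ n ih =>
    by_cases k : cells (N t) ⊆ cells (N u)
    · by_cases k' : cells (N u) ⊆ cells (N t)
      · exact hN.inj (k.antisymm k') ▸ h0 t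
      · obtain ⟨c, i, t0, a, b, A, B, h⟩ := hN.rm' k'
        exact hs _ _ (h1 _ _ _ _ _ _ _ _ h i (ih _ _ (by have := (hN.dl_up h t).1 i; rw [dl_comm] at e; omega)))
    · obtain ⟨c, i, t0, a, b, A, B, h⟩ := hN.rm' k
      exact h1 _ _ _ _ _ _ _ _ h i (ih _ _ (by have := (hN.dl_up h u).1 i; omega))

theorem di_eq (t u : T) : X.di t u = (dl N t u).ncard := by
  have h1 : X.Pth (dl N t u).ncard t u := by
    refine (hN.geo (fun t u => X.Pth (dl N t u).ncard t u ∧ X.Pth (dl N t u).ncard u t) (fun t => by simp [dl, Pth.z])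
      (fun t u h => dl_comm t u ▸ h.symm) (fun t0 t a c b A B u h i k => ?_) t u).1
    rw [(hN.dl_up h u).1 i]
    exact ⟨.s (X.sym h.st) k.1, k.2.snoc h.st⟩
  have h2 : ∀ n t, X.Pth n t u → (dl N t u).ncard ≤ n := fun n t h => by
    clear h1
    induction h with
    | z => simp [dl]
    | @s n t t' u a r d b i _ ih =>
      rcases hN.dich i with ⟨L, A, B, v⟩ | ⟨L, A, B, v⟩ <;> obtain ⟨p, q⟩ := hN.dl_up v u <;>
        rcases em (_ ∈ cells (N u)) with k | k <;> first | (have := p k; omega) | (have := q k; omega)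
  exact le_antisymm (Nat.sInf_le h1) (h2 _ _ (Nat.sInf_mem (s := {n | X.Pth n t u}) ⟨_, h1⟩))

theorem di_base (t : T) : X.di t o = (cells (N t)).ncard := by
  rw [hN.di_eq, dl, hN.cells_base]; exact congrArg _ (symmDiff_bot _)

end Sys.Chart

end Pool.Agent.H.MP_8a4945_al
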