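import Pool.Agent.H.MP_8a4945_al.B

namespace Pool.Agent.H.MP_8a4945_al

variable {S : Type} {R : Set (Rl S)} {G T : Type} [Group G] [MulAction G T] {X : Sys R G T} {o : T} {N : T → List (Tm S)}

noncomputable def ph (e : Bool) (y : Tm S) : Tm S := cond e (lp y) y

theorem In.of_ph {c : Ce S} {y : Tm S} {e : Bool} : In c (ph e y) → In c y := by
  cases e
  exacts [id, In.of_lp]

theorem ph_o (c : Ce S) {e : Bool} {j : ℕ} (h : e.toNat ≤ j) : ph e (c.o j) = c.o j := by
  cases e
  · rfl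
  · obtain ⟨j, rfl⟩ := Nat.exists_eq_add_of_le' h
    exact lp_succ c j

namespace Sys

abbrev ln (X : Sys R G T) (t : T) : ℕ := (X.word t).length

theorem ln_act (g : G) (t : T) : X.ln (g • t) = X.ln t := congrArg List.length (X.wact g t)

def sr (X : Sys R G T) (e : Bool) (p q : T × ℕ) : Prop := ∃ a r d b, X.St p.1 q.1 a r d b ∧
  ((p.2 < a.length + e.toNat ∧ q.2 = p.2) ∨ ∃ k, p.2 = a.length + (src r d).length + k ∧ q.2 = a.length + (src r (!d)).length + k)

def Q (X : Sys R G T) (e : Bool) : Type := Quot (X.sr e)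

def q (X : Sys R G T) (e : Bool) (t : T) (i : ℕ) : X.Q e := Quot.mk _ (t, i)

instance (e : Bool) : MulAction G (X.Q e) where
  smul g := Quot.map (fun p => (g • p.1, p.2)) fun _ _ ⟨a, r, d, b, h, k⟩ => ⟨a, r, d, b, X.sact g h, k⟩
  one_smul z := Quot.inductionOn z fun _ => congrArg (Quot.mk _) (Prod.ext (one_smul ..) rfl)
  mul_smul _ _ z := Quot.inductionOn z fun _ => congrArg (Quot.mk _) (Prod.ext (mul_smul ..) rfl)

theorem smul_q (g : G) (e : Bool) (t : T) (i : ℕ) : g • X.q e t i = X.q e (g • t) i := rfl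

theorem q_ind {e : Bool} (P : T → ℕ → Prop) (h : ∀ t i u j, X.sr e (t, i) (u, j) → P t i → P u j) {t i u j}
    (k : X.q e t i = X.q e u j) : P t i → P u j :=
  (congrArg (Quot.lift (fun p : T × ℕ => P p.1 p.2) fun p q l => propext ⟨h _ _ _ _ l, h _ _ _ _ (by
    obtain ⟨a, r, d, b, l, m⟩ := l
    exact ⟨a, r, !d, b, X.sym l, by grind⟩)⟩) k).mp

theorem to1 {t i u j} (k : X.q false t i = X.q false u j) : X.q true t i = X.q true u j :=
  q_ind (fun u j => X.q true t i = X.q true u j) (fun _ _ _ _ ⟨a, r, d, b, l, m⟩ n => n.trans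
    (Quot.sound ⟨a, r, d, b, l, by grind⟩)) k rfl

theorem nxt {t i u j} (k : X.q false t i = X.q false u j) : X.q true t (i + 1) = X.q true u (j + 1) :=
  q_ind (fun u j => X.q true t (i + 1) = X.q true u (j + 1)) (fun _ _ _ _ ⟨a, r, d, b, l, m⟩ n => n.trans
    (Quot.sound ⟨a, r, d, b, l, m.imp (by grind) fun ⟨k, m⟩ => ⟨k + 1, by grind⟩⟩)) k rfl

theorem q_zero (t u : T) : X.q true t 0 = X.q true u 0 :=
  X.con t (fun u => X.q true t 0 = X.q true u 0) rfl (fun _ _ a r d b l n => n.trans (Quot.sound ⟨a, r, d, b, l, .inl (by simp)⟩)) u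

def Z (X : Sys R G T) (e : Bool) (z : X.Q e) : Set T := {t | ∃ i < X.ln t, X.q e t i = z}

theorem Z_act {e : Bool} {z : X.Q e} (g : G) {t : T} (h : t ∈ X.Z e z) : g • t ∈ X.Z e (g • z) :=
  let ⟨i, j, k⟩ := h; ⟨i, (ln_act g t).symm ▸ j, k ▸ rfl⟩

theorem Up.os0 {t t' a c b A B} (h : X.Up N t t' a c b A B) : ∃ y L M, c.L = y :: L ∧ c.os = c.o 0 :: M := by
  obtain ⟨y, L, e⟩ := List.exists_cons_of_ne_nil h.n1
  obtain ⟨m, hm⟩ := Nat.exists_eq_succ_of_ne_zero (List.length_pos_iff.2 h.n2).ne'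
  exact ⟨y, L, _, e, by rw [Ce.os, outs, hm, List.range_succ_eq_map, List.map_cons]; rfl⟩

theorem Up.nm {t t' a c b A B} (h : X.Up N t t' a c b A B) {e : Bool} {i : ℕ} (k : i < a.length + e.toNat) :
    (N t)[i]?.map (ph e) = (N t')[i]?.map (ph e) := by
  rw [h.e1, h.e2, List.append_assoc, List.append_assoc]
  by_cases l : i < A.length
  · rw [List.getElem?_append_left l, List.getElem?_append_left l]
  · obtain ⟨y, L, M, e1, e2⟩ := h.os0
    have := h.l1
    cases e
    · simp at k; omega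
    · obtain rfl : i = A.length := by simp at k; omega
      simp [e1, e2, ph, (lp_zero e1).1]

theorem Up.ks {t t' a c b A B} (h : X.Up N t t' a c b A B) (e : Bool) (i : ℕ) :
    (∃ j, X.q e t' i = X.q e t j) ∨ ∃ j, e.toNat ≤ j ∧ (N t')[i]? = some (c.o j) := by
  by_cases k : i < a.length + e.toNat
  · exact .inl ⟨i, (Quot.sound ⟨_, _, _, _, h.st, .inl ⟨k, rfl⟩⟩).symm⟩
  by_cases l : a.length + (src c.r (!c.d)).length ≤ i
  · obtain ⟨m, rfl⟩ := Nat.exists_eq_add_of_le l
    exact .inl ⟨_, (Quot.sound ⟨_, _, _, _, h.st, .inr ⟨m, rfl, rfl⟩⟩).symm⟩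
  · obtain ⟨m, rfl⟩ := Nat.exists_eq_add_of_le (show a.length ≤ i by omega)
    refine .inr ⟨m, by omega, ?_⟩
    rw [h.e2, ← h.l1, List.append_assoc, List.getElem?_append_right (by omega), List.getElem?_append_left (by simp [Ce.os, outs]; omega)]
    simp [Ce.os, outs, show m < (src c.r (!c.d)).length by omega, Ce.o]

namespace Chart
variable (hN : X.Chart o N)
include hN

theorem nm {e t i u j} (k : X.q e t i = X.q e u j) : (N t)[i]?.map (ph e) = (N u)[j]?.map (ph e) := by
  refine q_ind (fun u j => _ = (N u)[j]?.map (ph e)) (fun u j u' j' ⟨a, r, d, b, l, m⟩ n => n.trans ?_) k rfl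
  rcases m with ⟨m, rfl⟩ | ⟨k, rfl, rfl⟩
  · rcases hN.dich l with ⟨L, A, B, v⟩ | ⟨L, A, B, v⟩
    exacts [v.nm m, (v.nm m).symm]
  · obtain ⟨A, s, B, l1, l2, -, l3, e1, e2⟩ := hN.dec l
    simp only at e1 e2 ⊢
    rw [e1, e2, List.getElem?_append_right (by simp; omega), List.getElem?_append_right (by simp; omega)]
    simp [l1, l2, l3]

theorem nm0 {t i u j} (k : X.q false t i = X.q false u j) : (N t)[i]? = (N u)[j]? := by
  simpa [show (ph false : Tm S → Tm S) = id from rfl] using hN.nm k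

theorem val {e t i u j} (k : X.q e t i = X.q e u j) (h : i < X.ln t) : j < X.ln u := by
  have := congrArg Option.isSome (hN.nm k)
  simpa [hN.len, h] using this

theorem get {t i} (h : i < X.ln t) : ∃ y, (N t)[i]? = some y := ⟨_, List.getElem?_eq_getElem (hN.len t ▸ h)⟩

theorem idx {e t} {i j : ℕ} (h : i < X.ln t) (k : (N t)[i]?.map (ph e) = (N t)[j]?.map (ph e)) : i = j := by
  have nd : ((N t).map (ph e)).Nodup := by
    cases e
    · exact ((hN.inv t).nd.of_map _).map fun _ _ => id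
    · exact (hN.inv t).nd
  rw [← List.getElem?_map, ← List.getElem?_map] at k
  exact (List.getElem?_inj (by simpa [hN.len] using h) nd).1 k

theorem cv {e t0 t a c b A B u} {i j : ℕ} (h : X.Up N t0 t a c b A B) (n : c ∉ cells (N u))
    (k : (N t)[i]?.map (ph e) = (N u)[j]?.map (ph e)) : ∃ i0, X.q e t i = X.q e t0 i0 := by
  refine (h.ks e i).resolve_right fun ⟨m, l, p⟩ => n ?_
  rw [p, Option.map_some, ph_o c l, eq_comm, Option.map_eq_some_iff] at k
  obtain ⟨y, k, k'⟩ := k
  exact ⟨y, List.mem_of_getElem? k, In.of_ph (e := e) (by rw [k']; exact .here m)⟩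

theorem kk {e t i u j} (h : i < X.ln t) (k : (N t)[i]?.map (ph e) = (N u)[j]?.map (ph e)) : X.q e t i = X.q e u j := by
  have v : ∀ {t i u j}, i < X.ln t → (N t)[i]?.map (ph e) = (N u)[j]?.map (ph e) → j < X.ln u := fun h k => by
    simpa [hN.len, h] using congrArg Option.isSome k
  refine hN.geo (fun t u => ∀ i j, i < X.ln t → (N t)[i]?.map (ph e) = (N u)[j]?.map (ph e) → X.q e t i = X.q e u j)
    (fun t i j h k => by rw [hN.idx h k]) (fun t u p i j h k => (p j i (v h k) k.symm).symm)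
    (fun t0 t a c b A B u p n ih i j h k => ?_) t u i j h k
  obtain ⟨i0, l⟩ := hN.cv p n k
  exact l.trans (ih _ _ (hN.val l h) ((hN.nm l).symm.trans k))

theorem kk0 {t i u j} (h : i < X.ln t) (k : (N t)[i]? = (N u)[j]?) : X.q false t i = X.q false u j := hN.kk h (by rw [k])

theorem conv {e z t0 t a c b A B u} (h : X.Up N t0 t a c b A B) (n : c ∉ cells (N u)) (k : t ∈ X.Z e z) (l : u ∈ X.Z e z) :
    t0 ∈ X.Z e z := by
  obtain ⟨i, k1, k2⟩ := k
  obtain ⟨j, l1, l2⟩ := l
  obtain ⟨i0, m⟩ := hN.cv h n (hN.nm (k2.trans l2.symm))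
  exact ⟨i0, hN.val m k1, m.symm.trans k2⟩

theorem gate1 {e z t u} (h : t ∈ X.Z e z) (m : ∀ u ∈ X.Z e z, X.di t o ≤ X.di u o) (k : u ∈ X.Z e z) :
    cells (N t) ⊆ cells (N u) := by
  by_contra n
  obtain ⟨c, i, t0, a, b, A, B, v⟩ := hN.rm' n
  have := m t0 (hN.conv v i h k)
  have := (hN.dl_up v o).1 (by simp [hN.cells_base])
  simp only [hN.di_eq] at *
  omega

theorem gate2 {e z t} {g : G} (h : t ∈ X.Z e z) (m : ∀ u ∈ X.Z e z, X.di t o ≤ X.di u o) (k : g • z = z) :
    cells (N (g • t)) ⊆ cells (N t) ∪ cells (N (g • o)) := by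
  by_contra n
  obtain ⟨c, i, t0, a, b, A, B, v⟩ := hN.rm (fun c => c ∉ cells (N t) ∪ cells (N (g • o))) (t := g • t)
    (fun _ _ _ _ i j k => j (k.imp (cells_cl · i) (cells_cl · i))) (Set.not_subset.1 n)
  have := m (g⁻¹ • t0) ((inv_smul_eq_iff.2 k.symm) ▸ Z_act g⁻¹ (hN.conv v (fun l => i (.inl l)) (k ▸ Z_act g h) h))
  have := (hN.dl_up v (g • o)).1 fun l => i (.inr l)
  rw [← X.di_act g t, ← X.di_act g (g⁻¹ • t0), smul_inv_smul] at *
  simp only [hN.di_eq] at *
  omega

theorem upl {t u y} (h : cells (N t) ⊆ cells (N u)) (k : y ∈ N u) : y ∈ N t ∨ ∃ c j, c ∉ cells (N t) ∧ y = c.o j := by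
  induction e : (cells (N u)).ncard generalizing u with
  | zero => exact .inl (hN.inj (h.antisymm (by simp [(Set.ncard_eq_zero (hN.inv u).fin).1 e])) ▸ k)
  | succ n ih =>
    by_cases l : cells (N u) ⊆ cells (N t)
    · exact .inl (hN.inj (h.antisymm l) ▸ k)
    obtain ⟨c, i, u0, a, b, A, B, v⟩ := hN.rm' l
    obtain ⟨p1, p2⟩ := hN.up_c v
    by_cases m : y ∈ c.os
    · obtain ⟨j, -, m⟩ := mem_os.1 m
      exact .inr ⟨c, j, i, m⟩
    · refine ih (u := u0) (fun x j => (p2 ▸ h j).resolve_left fun l => i (l ▸ j)) ?_ ?_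
      · simp only [v.e2, v.e1, List.mem_append] at k ⊢; tauto
      · rw [p2, Set.ncard_insert_of_notMem p1 (hN.inv u0).fin] at e; omega

theorem tk {t u i} (l : X.ln u = X.ln t) (h : i ≤ X.ln t) :
    (∀ k < i, X.q false u k = X.q false t k) ↔ (N u).take i = (N t).take i := by
  refine ⟨fun p => List.ext_getElem? fun k => ?_, fun p k j => hN.kk0 (by omega) ?_⟩
  · simp only [List.getElem?_take]
    split_ifs with j
    exacts [hN.nm0 (p k j), rfl]
  · simpa [List.getElem?_take, j] using congrArg (·[k]?) p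

theorem dr {t u i} (l : X.ln u = X.ln t) :
    (∀ k, i ≤ k → k < X.ln t → X.q false u k = X.q false t k) ↔ (N u).drop i = (N t).drop i := by
  refine ⟨fun p => List.ext_getElem? fun k => ?_, fun p k j j' => hN.kk0 (by omega) ?_⟩
  · simp only [List.getElem?_drop]
    by_cases j : i + k < X.ln t
    · exact hN.nm0 (p _ (by omega) j)
    · rw [List.getElem?_eq_none (by rw [hN.len]; exact l.trans_le (not_lt.1 j)), List.getElem?_eq_none (by rw [hN.len]; exact not_lt.1 j)]
  · simpa [List.getElem?_drop, j] using congrArg (·[k - i]?) p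

theorem allR {g : G} {t i u j} (k : X.q true t i = X.q true u j) :
    (N (g • t)).take i = (N t).take i → (N (g • u)).take j = (N u).take j := by
  refine q_ind (fun t i => (N (g • t)).take i = (N t).take i) (fun t i u j ⟨a, r, d, b, l, m⟩ n => ?_) k
  obtain ⟨A, s, B, l1, l2, -, l3, e1, e2⟩ := hN.dec l
  obtain ⟨A', s', B', l1', l2', -, l3', e1', e2'⟩ := hN.dec (X.sact g l)
  simp only at e1 e2 e1' e2' m
  rw [e1, e1'] at n
  rw [e2, e2']
  rcases m with ⟨m, rfl⟩ | ⟨k, rfl, rfl⟩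
  · simp only [List.append_assoc] at n ⊢
    rwa [List.take_append_of_le_length (by simp at m; omega), List.take_append_of_le_length (by simp at m; omega)] at n ⊢
  · have p : ∀ (C B : List (Tm S)) m, C.length = m → (C ++ B).take (m + k) = C ++ B.take k := by
      rintro C B _ rfl; exact List.take_length_add_append ..
    rw [p _ _ _ (by simp; omega), p _ _ _ (by simp; omega)] at n ⊢
    obtain ⟨n1, n2⟩ := List.append_inj n (by simp; omega)
    obtain ⟨rfl, rfl⟩ := List.append_inj n1 (by omega)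
    rw [n2]

theorem allL {g : G} {t i u j} (k : X.q true t i = X.q true u j) :
    (N (g • t)).drop i = (N t).drop i → (N (g • u)).drop j = (N u).drop j := by
  refine q_ind (fun t i => (N (g • t)).drop i = (N t).drop i) (fun t i u j ⟨a, r, d, b, l, m⟩ n => ?_) k
  obtain ⟨A, s, B, l1, l2, -, l3, e1, e2⟩ := hN.dec l
  obtain ⟨A', s', B', l1', l2', -, l3', e1', e2'⟩ := hN.dec (X.sact g l)
  simp only at e1 e2 e1' e2' m
  rw [e1, e1'] at n
  rw [e2, e2']
  rcases m with ⟨m, rfl⟩ | ⟨k, rfl, rfl⟩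
  · simp only [List.append_assoc] at n ⊢
    rw [List.drop_append_of_le_length (by simp at m; omega), List.drop_append_of_le_length (by simp at m; omega)] at n ⊢
    obtain ⟨n1, n2⟩ := List.append_inj n (by simp; omega)
    obtain ⟨rfl, rfl⟩ := List.append_inj n2 (by omega)
    rw [n1]
  · have p : ∀ (C B : List (Tm S)) m, C.length = m → (C ++ B).drop (m + k) = B.drop k := by
      rintro C B _ rfl; exact List.drop_length_add_append ..
    rwa [p _ _ _ (by simp; omega), p _ _ _ (by simp; omega)] at n ⊢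

theorem mix {t i u j} (k : X.q true t i = X.q true u j) :
    ∃ s, N s = (N u).take j ++ (N t).drop i ∧ X.word s = (X.word u).take j ++ (X.word t).drop i := by
  refine q_ind (fun u j => ∃ s, N s = (N u).take j ++ (N t).drop i ∧ X.word s = (X.word u).take j ++ (X.word t).drop i)
    (fun u j u' j' ⟨a, r, d, b, l, m⟩ ⟨s, n, w⟩ => ?_) k ⟨t, by simp⟩
  obtain ⟨A, σ, B, l1, l2, -, l3, e1, e2⟩ := hN.dec l
  have w1 := (X.wd l).2
  have w2 := X.wd' l
  simp only at e1 e2 w1 w2 m
  rw [e1] at n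
  rw [w1] at w
  rw [e2, w2]
  rcases m with ⟨m, rfl⟩ | ⟨k, rfl, rfl⟩
  · simp only [List.append_assoc] at n w ⊢
    rw [List.take_append_of_le_length (by simp at m; omega)] at n w ⊢
    rw [List.take_append_of_le_length (by simp at m; omega)]
    exact ⟨s, n, w⟩
  · have p : ∀ {α : Type} (C B : List α) m, C.length = m → (C ++ B).take (m + k) = C ++ B.take k := by
      rintro _ C B _ rfl; exact List.take_length_add_append ..
    rw [p _ _ _ (by simp; omega), List.append_assoc] at n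
    rw [p _ _ _ (by simp), List.append_assoc] at w
    rw [p _ _ _ (by simp; omega), p _ _ _ (by simp)]
    obtain ⟨s', v⟩ := X.ex (X.wd l).1 w
    exact ⟨s', by rw [hN.step v n l1 l2, List.append_assoc (A ++ _)], by rw [X.wd' v, List.append_assoc (a ++ _)]⟩

end Chart

end Sys

end Pool.Agent.H.MP_8a4945_al
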