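import Pool.Agent.H.MP_8a4945_al.C

namespace Pool.Agent.H.MP_8a4945_al

variable {S : Type} {R : Set (Rl S)} {G T : Type} [Group G] [MulAction G T] {X : Sys R G T} {o : T} {N : T → List (Tm S)}

namespace Sys

def RR (X : Sys R G T) (μ : X.Q true) : Subgroup G where
  carrier := {g | g • μ = μ ∧ ∀ t i, X.q true t i = μ → ∀ k < i, X.q false (g • t) k = X.q false t k}
  one_mem' := by simp
  mul_mem' {g h} a b := ⟨by rw [mul_smul, b.1, a.1], fun t i e k l => by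
    rw [mul_smul, a.2 _ i (by rw [← smul_q, e, b.1]) k l, b.2 t i e k l]⟩
  inv_mem' {g} a := ⟨inv_smul_eq_iff.2 a.1.symm, fun t i e k l => by
    simpa using (a.2 (g⁻¹ • t) i (by rw [← smul_q, e, inv_smul_eq_iff, a.1]) k l).symm⟩

def LL (X : Sys R G T) (μ : X.Q true) : Subgroup G where
  carrier := {g | g • μ = μ ∧ ∀ t i, X.q true t i = μ → ∀ k, i ≤ k → k < X.ln t → X.q false (g • t) k = X.q false t k}
  one_mem' := by simp
  mul_mem' {g h} a b := ⟨by rw [mul_smul, b.1, a.1], fun t i e k l l' => by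
    rw [mul_smul, a.2 _ i (by rw [← smul_q, e, b.1]) k l (by rwa [ln_act]), b.2 t i e k l l']⟩
  inv_mem' {g} a := ⟨inv_smul_eq_iff.2 a.1.symm, fun t i e k l l' => by
    simpa using (a.2 (g⁻¹ • t) i (by rw [← smul_q, e, inv_smul_eq_iff, a.1]) k l (by rwa [ln_act])).symm⟩

def Hyp (X : Sys R G T) (g : G) (μ : X.Q true) : Prop :=
  (X.Z true μ).Nonempty ∧ g • μ = μ ∧ ∀ t i, X.q true t i = μ → X.q false (g • t) i ≠ X.q false t i

theorem RR_conj {μ} {g : G} (h : G) (a : g ∈ X.RR μ) : h * g * h⁻¹ ∈ X.RR (h • μ) :=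
  ⟨by simp [mul_smul, a.1], fun t i e k l => by
    simpa [smul_q, mul_smul] using congrArg (h • ·) (a.2 (h⁻¹ • t) i (by rw [← smul_q, e, inv_smul_smul]) k l)⟩

theorem LL_conj {μ} {g : G} (h : G) (a : g ∈ X.LL μ) : h * g * h⁻¹ ∈ X.LL (h • μ) :=
  ⟨by simp [mul_smul, a.1], fun t i e k l l' => by
    simpa [smul_q, mul_smul] using congrArg (h • ·) (a.2 (h⁻¹ • t) i (by rw [← smul_q, e, inv_smul_smul]) k l (by rwa [ln_act]))⟩

theorem Hyp.conj {μ} {g : G} (h : G) (a : X.Hyp g μ) : X.Hyp (h * g * h⁻¹) (h • μ) :=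
  ⟨let ⟨_, b⟩ := a.1; ⟨_, Z_act h b⟩, by simp [mul_smul, a.2.1], fun t i e l => a.2.2 (h⁻¹ • t) i (by rw [← smul_q, e, inv_smul_smul])
    (by simpa [smul_q, mul_smul] using congrArg (h⁻¹ • ·) l)⟩

theorem disj' {μ} {g : G} (v : (X.Z true μ).Nonempty) (a : g ∈ X.LL μ) (b : g ∈ X.RR μ) : g = 1 := by
  obtain ⟨t, i, l, e⟩ := v
  obtain ⟨N, hN⟩ := X.chart t
  refine X.free g t (hN.injN ?_)
  rw [← List.take_append_drop i (N _), (hN.tk (ln_act g t) l.le).1 (b.2 t i e), (hN.dr (ln_act g t)).1 (a.2 t i e),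
    List.take_append_drop]

theorem split {μ} {g : G} (v : (X.Z true μ).Nonempty) (a : g • μ = μ) : ∃ l ∈ X.LL μ, ∃ ρ ∈ X.RR μ, g = l * ρ := by
  obtain ⟨t, i, l, e⟩ := v
  obtain ⟨N, hN⟩ := X.chart t
  obtain ⟨s, e1, e2⟩ := hN.mix (e.trans (a.symm.trans (e ▸ rfl)) : _ = X.q true (g • t) i)
  obtain ⟨lm, rfl⟩ := X.tr t s (by rw [e2, X.wact, List.take_append_drop])
  have l1 : ((N (g • t)).take i).length = i := by simp [hN.len, X.wact, l.le]
  have d : (N (lm • t)).drop i = (N t).drop i := by rw [e1, List.drop_left' l1]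
  have d' : (N (g • t)).take i = (N (lm • t)).take i := by rw [e1, List.take_left' l1]
  have m : lm • μ = μ := e ▸ to1 ((hN.dr (ln_act _ t)).2 d i le_rfl l)
  refine ⟨lm, ⟨m, fun u j f => (hN.dr (ln_act _ u)).2 (hN.allL (e.trans f.symm) d)⟩, lm⁻¹ * g, ⟨by rw [mul_smul, a, inv_smul_eq_iff, m],
    fun u j f => (hN.tk (ln_act _ u) (hN.val (e.trans f.symm) l).le).2 (hN.allR (e.trans f.symm) ((hN.tk (ln_act _ t) l.le).1 fun k p => ?_))⟩,
    by simp⟩
  simpa [smul_q, mul_smul] using congrArg (lm⁻¹ • ·) ((hN.tk (by simp [ln_act]) (by simp [ln_act, l.le])).2 d' k p)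

theorem comm_part {μ} {l ρ h : G} (v : (X.Z true μ).Nonempty) (a : l ∈ X.LL μ) (b : ρ ∈ X.RR μ) (c : h • μ = μ)
    (k : Commute h (l * ρ)) : Commute h l ∧ Commute h ρ := by
  have e : l⁻¹ * (h * l * h⁻¹) = ρ * (h * ρ * h⁻¹)⁻¹ := by
    rw [inv_mul_eq_iff_eq_mul, ← mul_assoc l, ← mul_inv_cancel_right (l * ρ) h, ← k.eq]; group
  have e1 := disj' v (mul_mem (inv_mem a) (c ▸ LL_conj h a)) (e ▸ mul_mem b (inv_mem (c ▸ RR_conj h b)))
  exact ⟨mul_inv_eq_iff_eq_mul.1 (inv_mul_eq_one.1 e1).symm, mul_inv_eq_iff_eq_mul.1 (mul_inv_eq_one.1 (e ▸ e1)).symm⟩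

theorem ex_min {s : Set T} (f : T → ℕ) (h : s.Nonempty) : ∃ t ∈ s, ∀ u ∈ s, f t ≤ f u :=
  ⟨_, Function.argminOn_mem f s h, fun _ i => Function.argminOn_le f s i⟩

theorem hyp_fin (o : T) (g : G) : {μ | X.Hyp g μ}.Finite := by
  obtain ⟨N, hN⟩ := X.chart o
  let pn : X.Q true → Option (Tm S) := Quot.lift (fun p => (N p.1)[p.2]?.map (ph true)) fun _ _ h => hN.nm (Quot.sound h)
  refine Set.Finite.of_finite_image (f := pn) (((hN.inv (g • o)).fin.image fun c => some (lp (c.o 0))).subset ?_) ?_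
  · rintro _ ⟨μ, h, rfl⟩
    obtain ⟨t, m, k⟩ := ex_min (X.di · o) h.1
    obtain ⟨i, l, rfl⟩ := id m
    obtain ⟨y, e⟩ := hN.get l
    obtain ⟨y', e'⟩ := hN.get (t := g • t) (i := i) (by rwa [ln_act])
    have n := hN.nm h.2.1
    rcases hN.upl (hN.gate1 m k (h.2.1 ▸ Z_act g m)) (List.mem_of_getElem? e') with p | ⟨c, j, p, rfl⟩
    · obtain ⟨j, p⟩ := List.getElem?_of_mem p
      obtain rfl := hN.idx (e := true) l (n.symm.trans (by rw [e', p]))
      exact (h.2.2 t i rfl (hN.kk0 (by rwa [ln_act]) (e'.trans p.symm))).elim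
    · refine ⟨c, (hN.gate2 m k h.2.1 (cells_o (List.mem_of_getElem? e'))).resolve_left p, ?_⟩
      cases j with
      | zero => exact (congrArg _ e').symm.trans n
      | succ j =>
        simp only [e, e', Option.map_some, ph, cond_true, lp_succ, Option.some.injEq] at n
        exact (p ⟨y, List.mem_of_getElem? e, In.of_lp (by rw [← n]; exact .here _)⟩).elim
  · rintro _ ⟨⟨t, i, l, rfl⟩, -⟩ _ ⟨⟨u, j, -, rfl⟩, -⟩ h
    exact hN.kk l h

theorem hyp_pow (o : T) {g h : G} {μ} (a : X.Hyp g μ) (c : Commute h g) : ∃ j, 0 < j ∧ h ^ j • μ = μ := by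
  obtain ⟨m, n, l, e⟩ := (hyp_fin (X := X) o g).exists_lt_map_eq_of_forall_mem (f := fun n : ℕ => h ^ n • μ) fun n => by
    simpa [(c.pow_left n).eq] using a.conj (h ^ n)
  obtain ⟨j, rfl⟩ := Nat.exists_eq_add_of_lt l
  exact ⟨j + 1, by simp, by rw [add_assoc, pow_add, mul_smul] at e; exact ((smul_left_cancel_iff _).1 e).symm⟩

theorem start (o : T) {g : G} (h : g ≠ 1) : ∃ μ, X.Hyp g μ ∧ g ∈ X.RR μ := by
  classical
  obtain ⟨o, -, m⟩ := ex_min (s := .univ) (fun t => X.di (g • t) t) ⟨o, trivial⟩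
  obtain ⟨N, hN⟩ := X.chart o
  have k : ∃ i : ℕ, (N (g • o))[i]? ≠ (N o)[i]? := by
    by_contra k
    exact h (X.free g o (hN.injN (List.ext_getElem? (by simpa using k))))
  obtain ⟨i, k1, k2⟩ : ∃ i : ℕ, (N (g • o))[i]? ≠ (N o)[i]? ∧ ∀ k < i, (N (g • o))[k]? = (N o)[k]? :=
    ⟨_, Nat.find_spec k, fun _ j => not_not.1 (Nat.find_min k j)⟩
  have l : i < X.ln o := by
    by_contra l
    rw [List.getElem?_eq_none (by rw [hN.len]; exact (ln_act g o).trans_le (not_lt.1 l)),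
      List.getElem?_eq_none (by rw [hN.len]; exact not_lt.1 l)] at k1
    exact k1 rfl
  have k3 : ∀ k < i, X.q false (g • o) k = X.q false o k := fun k j => hN.kk0 (by rw [ln_act]; omega) (k2 k j)
  have f : X.q true (g • o) i = X.q true o i := by
    cases i with
    | zero => exact q_zero ..
    | succ i => exact nxt (k3 i (by simp))
  refine ⟨X.q true o i, ⟨⟨o, i, l, rfl⟩, f, fun u j e p => ?_⟩, f, fun u j e =>
    (hN.tk (ln_act _ u) (hN.val e.symm l).le).2 (hN.allR e.symm ((hN.tk (ln_act _ o) l.le).1 k3))⟩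
  obtain ⟨t, a, b⟩ := ex_min (s := X.Z false (X.q false u j)) (X.di · o) ⟨u, j, hN.val e.symm l, rfl⟩
  have g1 := hN.gate1 a b ((show g • X.q false u j = X.q false u j from p) ▸ Z_act g a)
  have g2 := hN.gate2 (g := g) a b p
  obtain ⟨n, a1, a2⟩ := a
  have e0 : (N o)[i]? = some (.ini i) := by simp [hN.base, l]
  obtain ⟨y, e1⟩ := hN.get (t := g • o) (i := i) (by rwa [ln_act])
  obtain ⟨z, e2⟩ := hN.get a1
  have n1 := hN.nm f
  have n2 := hN.nm ((to1 a2).trans e)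
  simp only [e0, e1, e2, Option.map_some, ph, cond_true, lp_ini, Option.some.injEq] at n1 n2
  obtain ⟨c, c1, c2⟩ := bot (y := y) (by rintro r; exact k1 (by rw [e0, e1, ← r, n1]))
  obtain ⟨c', c3, c4⟩ := bot (y := z) (by
    rintro r
    have := a2.symm.trans (hN.kk0 (u := o) (j := i) a1 (by rw [e0, e2, ← r, n2]))
    exact k1 (hN.nm0 ((congrArg (g • ·) this).symm.trans (p.trans this))))
  have c5 : c ∈ cells (N (g • o)) := ⟨y, List.mem_of_getElem? e1, c1⟩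
  have c6 : c' ∈ cells (N t) := ⟨z, List.mem_of_getElem? e2, c3⟩
  have := m t trivial
  rw [hN.di_base, hN.di_eq] at this
  refine this.not_gt (Set.ncard_lt_ncard ⟨fun x w => ?_, fun w => ?_⟩ (hN.inv _).fin)
  · rcases w with w | w
    exacts [(g2 w.1).resolve_left w.2, (w.2 (g1 w.1)).elim]
  · rcases w c5 with w | w
    · exact w.2 ((hN.inv _).i5 c w.1 c' (g1 c6) _ (n1 ▸ c2) (n2 ▸ c4) ▸ c6)
    · exact w.2 (g1 w.1)

theorem bridge {g : G} {μ ν} (a : X.Hyp g μ) (v : (X.Z true ν).Nonempty) (b : g • ν = ν) : (X.Z true μ ∩ X.Z true ν).Nonempty := by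
  obtain ⟨⟨t, o⟩, ⟨h1, h2⟩, m⟩ : ∃ p ∈ X.Z true μ ×ˢ X.Z true ν, ∀ p' ∈ X.Z true μ ×ˢ X.Z true ν, X.di p.1 p.2 ≤ X.di p'.1 p'.2 :=
    ⟨_, Function.argminOn_mem _ _ (a.1.prod v), fun _ i => Function.argminOn_le (fun p : T × T => X.di p.1 p.2) _ i⟩
  obtain ⟨N, hN⟩ := X.chart o
  simp only at h1 h2 m
  by_cases e : cells (N t) ⊆ cells (N o)
  · exact ⟨t, h1, hN.inj (e.antisymm (by simp [hN.cells_base])) ▸ h2⟩
  exfalso
  have g1 := hN.gate1 h1 (fun u i => m (u, o) ⟨i, h2⟩) (a.2.1 ▸ Z_act g h1)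
  have g2 : ∀ n u, (cells (N u)).ncard = n → u ∈ X.Z true ν → Disjoint (cells (N u)) (cells (N t)) := fun n => by
    induction n with
    | zero => exact fun u i _ => by simp [(Set.ncard_eq_zero (hN.inv u).fin).1 i]
    | succ n ih =>
      intro u i j
      by_cases k : cells (N u) ⊆ cells (N t)
      · have := m (t, u) ⟨h1, j⟩
        rw [hN.di_base, hN.di_eq, dl, symmDiff_of_ge k, Set.ncard_sdiff k (hN.inv _).fin] at this
        have := Set.ncard_le_ncard k (hN.inv _).fin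
        omega
      · obtain ⟨c, k, u0, a, b, A, B, v⟩ := hN.rm' k
        obtain ⟨p1, p2⟩ := hN.up_c v
        rw [p2, Set.ncard_insert_of_notMem p1 (hN.inv _).fin] at i
        rw [p2]
        exact Set.disjoint_insert_left.2 ⟨k, ih u0 (by omega) (hN.conv v (by simp [hN.cells_base]) j h2)⟩
  have g3 := g2 _ _ rfl (b ▸ Z_act g h2)
  have g4 : cells (N t) = dl N (g • t) (g • o) := Set.eq_of_subset_of_ncard_le
    (fun x i => .inl ⟨g1 i, fun j => Set.disjoint_left.1 g3 j i⟩) (by rw [← hN.di_eq, X.di_act, hN.di_base]) (hN.dl_fin ..)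
  obtain ⟨c, -, t0, a', b', A, B, v⟩ := hN.rm' e
  obtain ⟨i, l, rfl⟩ := id h1
  rcases v.ks true i with ⟨j, p⟩ | ⟨j, p, p'⟩
  · have := m (t0, o) ⟨⟨j, hN.val p l, p.symm⟩, h2⟩
    have := (hN.dl_up v o).1 (by simp [hN.cells_base])
    simp only [hN.di_eq] at *
    omega
  · obtain ⟨y, e1⟩ := hN.get (t := g • t) (i := i) (by rwa [ln_act])
    have n := hN.nm a.2.1
    rw [e1, p', Option.map_some, Option.map_some, ph_o c p, Option.some.injEq] at n
    change lp y = _ at n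
    obtain ⟨c', c1, c2⟩ := bot (y := y) fun r => a.2.2 t i rfl (hN.kk0 (by rwa [ln_act]) (by rw [e1, p', ← r, n]))
    rw [n] at c2
    have c3 : c' ∉ cells (N t) := fun r => (hN.inv t).i2 c' r _ c2 (List.mem_of_getElem? p')
    have c4 : c' ∈ cells (N (g • o)) := by_contra fun r => c3 (g4 ▸ .inl ⟨⟨y, List.mem_of_getElem? e1, c1⟩, r⟩)
    exact Set.disjoint_left.1 g3 (cells_cl c4 c2) (cells_o (List.mem_of_getElem? p'))

theorem uniq {g h : G} {μ ν} (a : X.Hyp g μ) (b : X.Hyp h ν) (c : g ∈ X.RR ν) (d : h ∈ X.RR μ) : μ = ν := by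
  obtain ⟨t, ⟨i, -, rfl⟩, j, -, rfl⟩ := bridge a b.1 c.1
  rcases lt_trichotomy i j with l | rfl | l
  exacts [(a.2.2 t i rfl (c.2 t j rfl i l)).elim, rfl, (b.2.2 t j rfl (d.2 t i rfl j l)).elim]

theorem fix_start {g h : G} {μ} (a : X.Hyp g μ) (c : g ∈ X.RR μ) (k : Commute h g) : h • μ = μ :=
  uniq (g := g) (by simpa [k.eq] using a.conj h) a c (by simpa [k.eq] using RR_conj h c)

end Sys

end Pool.Agent.H.MP_8a4945_al
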