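import Pool.Agent.H.MP_8a4945_al.D
import Pool.Agent.H.MP_f02a84_al.Grp

namespace Pool.Agent.H.MP_8a4945_al

theorem tree_free {A Y : Type} [Group A] [MulAction A Y] (V : Y → Prop) (adj : Y → Y → Prop) (dep : Y → ℕ) (ρ : Y)
    (hV : ∀ (a : A) u, V u → V (a • u)) (aV : ∀ u v, adj u v → V u) (sym : ∀ u v, adj u v → adj v u)
    (inv : ∀ (a : A) u v, adj u v → adj (a • u) (a • v)) (free : ∀ (a : A) u, V u → a • u = u → a = 1)
    (tf : ∀ a : A, a * a = 1 → a = 1) (h2 : ∀ u v, adj u v → dep v = dep u + 1 ∨ dep u = dep v + 1)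
    (h3 : ∀ u v v', adj u v → adj u v' → dep u = dep v + 1 → dep u = dep v' + 1 → v = v')
    (h4 : ∀ u n, V u → dep u = n + 1 → ∃ v, adj v u ∧ dep v = n) (h5 : ∀ u, V u → dep u = 0 → u = ρ) (h6 : V ρ) (h7 : dep ρ = 0) :
    ∃ (α : Type) (φ : A →* FreeGroup α), Function.Injective φ := by
  classical
  let E := MulAction.orbitRel.Quotient A (Y × Y)
  let _ : LinearOrder E := linearOrderOfSTO WellOrderingRel
  let c : Y → Y → E := fun u v => Quotient.mk'' (u, v)
  have c1 : ∀ (a : A) u v, c (a • u) (a • v) = c u v := fun a u v => Quotient.sound' ⟨a, rfl⟩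
  have c2 : ∀ u v u' v', c u v = c u' v' → ∃ a : A, a • u' = u ∧ a • v' = v := fun u v u' v' h =>
    let ⟨a, k⟩ := Quotient.exact' h; ⟨a, congrArg Prod.fst k, congrArg Prod.snd k⟩
  have c3 : ∀ u v, adj u v → c u v ≠ c v u := fun u v h k => by
    obtain ⟨a, i, j⟩ := c2 _ _ _ _ k
    obtain rfl := tf a (free _ u (aV _ _ h) (by rw [mul_smul, j, i]))
    obtain rfl : v = u := by simpa using i
    have := h2 _ _ h
    omega
  obtain ⟨lt, hl⟩ : ∃ lt : Y → Y → E × Bool, ∀ u v, lt u v = if c u v < c v u then (c u v, true) else (c v u, false) := ⟨_, fun _ _ => rfl⟩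
  have l1 : ∀ (a : A) u v, lt (a • u) (a • v) = lt u v := fun a u v => by simp only [hl, c1]
  have l2 : ∀ u v, adj u v → lt v u = ((lt u v).1, !(lt u v).2) := fun u v h => by
    rcases (c3 u v h).lt_or_gt with k | k <;> simp [hl, k, k.not_gt]
  have l3 : ∀ v u w, V v → lt v w = lt v u → w = u := fun v u w h k => by
    have : c v w = c v u ∨ c w v = c u v := by simp only [hl] at k; split_ifs at k <;> simp_all
    rcases this with k | k <;> obtain ⟨a, i, j⟩ := c2 _ _ _ _ k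
    · simpa [free a v h i] using j.symm
    · simpa [free a v h j] using i.symm
  choose! par p1 p2 using fun u (h : V u ∧ dep u ≠ 0) => h4 u (dep u - 1) h.1 (by omega)
  let W : ℕ → Y → List (E × Bool) := fun n => n.rec (fun _ => []) fun _ r u => lt (par u) u :: r (par u)
  have W1 : ∀ u v, adj u v → dep v = dep u + 1 → par v = u ∧ W (dep v) v = lt u v :: W (dep u) u := fun u v h k => by
    have i : V v ∧ dep v ≠ 0 := ⟨aV _ _ (sym _ _ h), by omega⟩
    have e := h3 v _ _ (sym _ _ (p1 v i)) (sym _ _ h) (by have := p2 v i; omega) k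
    exact ⟨e, by rw [k, ← e]⟩
  let lab : Y → FreeGroup E := fun u => .mk (W (dep u) u)
  have b1 : ∀ u v, adj u v → lab v = .mk [lt u v] * lab u := fun u v h => by
    have : ∀ u v, adj u v → dep v = dep u + 1 → lab v = .mk [lt u v] * lab u := fun u v h k => by
      simp only [lab, (W1 u v h k).2, FreeGroup.mul_mk, List.singleton_append]
    rcases h2 u v h with k | k
    · exact this u v h k
    · rw [this v u (sym _ _ h) k, l2 u v h, ← mul_assoc, FreeGroup.mul_mk]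
      exact (one_mul _).symm.trans (congrArg (· * _) (Quot.sound (FreeGroup.Red.Step.cons_not (L := []))).symm)
  have ind : ∀ P : Y → Prop, P ρ → (∀ u v, adj u v → dep v = dep u + 1 → P u → P v) → ∀ u, V u → P u := fun P a b u h => by
    induction e : dep u generalizing u with
    | zero => exact h5 u h e ▸ a
    | succ n ih =>
      obtain ⟨v, i, j⟩ := h4 u n h e
      exact b v u i (by omega) (ih v (aV _ _ i) j)
  have b0 : lab ρ = 1 := by simp only [lab, h7]; rfl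
  have b2 : ∀ (a : A) u, V u → lab (a • u) = lab u * lab (a • ρ) := fun a => ind _ (by rw [b0, one_mul]) fun u v h _ k => by
    rw [b1 _ _ (inv a _ _ h), b1 _ _ h, l1, k, mul_assoc]
  have b3 : ∀ u, V u → FreeGroup.IsReduced (W (dep u) u) := ind _ (by rw [h7]; exact .nil) fun u v h k r => by
    rw [(W1 u v h k).2]
    by_cases z : dep u = 0
    · rw [z]; exact .singleton
    · have i := p1 u ⟨aV _ _ h, z⟩
      have j := p2 u ⟨aV _ _ h, z⟩
      rw [(W1 _ _ i (by omega)).2] at r ⊢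
      refine FreeGroup.isReduced_cons_cons.2 ⟨fun e => by_contra fun n => ?_, r⟩
      have := l3 u (par u) v (aV _ _ h) (by rw [l2 _ _ i, ← e]; exact Prod.ext rfl (Bool.eq_not.2 n))
      rw [← this] at j
      omega
  refine ⟨E, MonoidHom.mk' (fun a => (lab (a • ρ))⁻¹) fun a b => by rw [mul_smul, b2 _ _ (hV b _ h6), mul_inv_rev],
    (injective_iff_map_eq_one _).2 fun a h => free a ρ h6 (h5 _ (hV a _ h6) ?_)⟩
  have := congrArg FreeGroup.toWord (inv_eq_one.1 (show (lab (a • ρ))⁻¹ = 1 from h))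
  rw [FreeGroup.toWord_mk, (b3 _ (hV a _ h6)).reduce_eq] at this
  cases e : dep (a • ρ) with
  | zero => rfl
  | succ n => rw [e] at this; cases this

open MP_f02a84_al in
theorem no_z2 {α : Type} (φ : Multiplicative (ℤ × ℤ) →* FreeGroup α) : ¬ Function.Injective φ := fun h => by
  let e := (MonoidHom.ofInjective h).trans (IsFreeGroup.toFreeGroup φ.range)
  by_cases k : Subsingleton (IsFreeGroup.Generators φ.range)
  · obtain ⟨z, i⟩ : ∃ z : FreeGroup (IsFreeGroup.Generators φ.range), ∀ a, .of a ∈ Subgroup.zpowers z := by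
      by_cases j : Nonempty (IsFreeGroup.Generators φ.range)
      exacts [⟨.of j.some, fun a => Subsingleton.elim a j.some ▸ Subgroup.mem_zpowers _⟩, ⟨1, fun a => (j ⟨a⟩).elim⟩]
    have : ∀ x, ∃ n : ℤ, n • (e.symm z).toAdd = x := fun x => by
      obtain ⟨n, j⟩ := (Subgroup.closure_le _).2 (Set.range_subset_iff.2 i) (FreeGroup.closure_range_of _ ▸ Subgroup.mem_top (e (.ofAdd x)))
      exact ⟨n, by rw [← toAdd_zpow, ← map_zpow, show z ^ n = _ from j]; simp⟩
    obtain ⟨m, j⟩ := this (1, 0)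
    obtain ⟨n, l⟩ := this (0, 1)
    simp only [Prod.ext_iff, Prod.smul_fst, Prod.smul_snd, smul_eq_mul, mul_eq_zero] at j l
    rcases j.2 with r | r <;> simp_all
  · obtain ⟨a, b, i⟩ := @exists_pair_ne _ (not_subsingleton_iff_nontrivial.1 k)
    have := free_center i (z := e (.ofAdd (1, 0))) fun c => by simpa using (Commute.all (e.symm (.of c)) (.ofAdd (1, 0))).map e
    simp [← ofAdd_zero] at this

variable {S : Type} {R : Set (Rl S)} {G T : Type} [Group G] [MulAction G T] {X : Sys R G T}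

theorem dp_cases (y : Tm S) : (lp y = y ∧ dp y = 0) ∨ ∃ (c : Ce S) (z : Tm S) (L : List (Tm S)), c.L = z :: L ∧ y = c.o 0 :=
  lp_ind (fun y => (lp y = y ∧ dp y = 0) ∨ ∃ (c : Ce S) (z : Tm S) (L : List (Tm S)), c.L = z :: L ∧ y = c.o 0)
    (fun _ a b => .inl ⟨a, b⟩) (fun c z L h _ => .inr ⟨c, z, L, h, rfl⟩) y

namespace Sys

theorem no_free (ι : Multiplicative (ℤ × ℤ) →* G) {μ} (h : ∀ a ≠ 1, X.Hyp (ι a) μ) : False := by
  obtain ⟨o, i0, l0, e0⟩ := (h (.ofAdd (1, 0)) (by decide)).1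
  obtain ⟨N, hN⟩ := X.chart o
  let _ := MulAction.compHom (X.Q false) ι
  have fx : ∀ a, ι a • μ = μ := fun a => by
    by_cases k : a = 1
    exacts [by simp [k], (h a k).2.1]
  obtain ⟨nz, hz⟩ : ∃ nz : X.Q false → Option (Tm S), ∀ t i, nz (X.q false t i) = (N t)[i]? :=
    ⟨Quot.lift (fun p => (N p.1)[p.2]?) fun _ _ h => hN.nm0 (Quot.sound h), fun _ _ => rfl⟩
  have zi : ∀ u v y, nz u = some y → nz v = some y → u = v := by
    rintro ⟨t, i⟩ ⟨u, j⟩ y a b
    exact hN.kk0 ((List.getElem?_eq_some_iff.1 ((hz t i).symm.trans a)).1.trans_eq (hN.len t)) (((hz t i).symm.trans a).trans ((hz u j).symm.trans b).symm)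
  obtain ⟨dep, hd⟩ : ∃ dep : X.Q false → ℕ, ∀ u y, nz u = some y → dep u = dp y :=
    ⟨fun u => ((nz u).map dp).getD 0, fun u y k => by simp [k]⟩
  let adj : X.Q false → X.Q false → Prop := fun u v => ∃ t t' a r d b, X.St t t' a r d b ∧ X.q true t a.length = μ ∧
    u = X.q false t a.length ∧ v = X.q false t' a.length
  have un : ∀ {t t' a c b A B}, X.Up N t t' a c b A B → ∃ y L, c.L = y :: L ∧ nz (X.q false t a.length) = some y ∧
      nz (X.q false t' a.length) = some (c.o 0) := fun v => by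
    obtain ⟨y, L, M, e1, e2⟩ := v.os0
    exact ⟨y, L, e1, by simp [hz, v.e1, e1, ← v.l1], by simp [hz, v.e2, e2, ← v.l1]⟩
  have key : ∀ u v, adj u v → ∃ (c : Ce S) (y : Tm S) (L : List (Tm S)), c.L = y :: L ∧
      ((nz u = some y ∧ nz v = some (c.o 0) ∧ dep v = dep u + 1) ∨ (nz v = some y ∧ nz u = some (c.o 0) ∧ dep u = dep v + 1)) := by
    rintro _ _ ⟨t, t', a, r, d, b, k, -, rfl, rfl⟩
    rcases hN.dich k with ⟨L, A, B, v⟩ | ⟨L, A, B, v⟩ <;> obtain ⟨y, L, p1, p2, p3⟩ := un v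
    exacts [⟨_, y, L, p1, .inl ⟨p2, p3, by rw [hd _ _ p2, hd _ _ p3, (lp_zero p1).2]⟩⟩,
      ⟨_, y, L, p1, .inr ⟨p2, p3, by rw [hd _ _ p2, hd _ _ p3, (lp_zero p1).2]⟩⟩]
  have sd : ∀ {t t' a r d b}, X.St t t' a r d b → X.q true t a.length = X.q true t' a.length := fun k =>
    Quot.sound ⟨_, _, _, _, k, .inl (by simp)⟩
  have r0 : nz (X.q false o i0) = some (.ini i0) := by simp [hz, hN.base, l0]
  obtain ⟨α, φ, k⟩ := tree_free (A := Multiplicative (ℤ × ℤ)) (fun z => ∃ t i, X.q true t i = μ ∧ z = X.q false t i) adj dep (X.q false o i0)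
    (by rintro a _ ⟨t, i, e, rfl⟩; exact ⟨ι a • t, i, by rw [← smul_q, e, fx], rfl⟩)
    (fun _ _ ⟨t, _, a, _, _, _, _, e, f, _⟩ => ⟨t, _, e, f⟩)
    (fun _ _ ⟨t, t', a, r, d, b, k, e, f, f'⟩ => ⟨t', t, a, r, !d, b, X.sym k, (sd k).symm.trans e, f', f⟩)
    (by rintro g _ _ ⟨t, t', a, r, d, b, k, e, rfl, rfl⟩; exact ⟨_, _, a, r, d, b, X.sact (ι g) k, by rw [← smul_q, e, fx], rfl, rfl⟩)
    (by rintro a _ ⟨t, i, e, rfl⟩ k; exact by_contra fun n => (h a n).2.2 t i e k)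
    (fun a k => by simpa [← pow_two] using k)
    (fun u v k => by obtain ⟨c, y, L, -, k | k⟩ := key u v k; exacts [.inl k.2.2, .inr k.2.2])
    (fun u v v' k k' a b => by
      obtain ⟨c, y, L, p, k | k⟩ := key u v k
      · omega
      obtain ⟨c', y', L', p', k' | k'⟩ := key u v' k'
      · omega
      obtain rfl := (Ce.o_inj (Option.some.inj (k.2.1.symm.trans k'.2.1))).1
      obtain rfl := (List.cons.inj (p.symm.trans p')).1
      exact zi _ _ _ k.1 k'.1)
    (by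
      rintro _ n ⟨t, i, e, rfl⟩ k
      obtain ⟨y, p⟩ := hN.get (hN.val (e0.trans e.symm) l0)
      rw [hd _ y ((hz t i).trans p)] at k
      rcases dp_cases y with w | ⟨c, z, L, w, rfl⟩
      · omega
      induction m : (cells (N t)).ncard generalizing t i with
      | zero => simpa [(Set.ncard_eq_zero (hN.inv t).fin).1 m] using cells_o (List.mem_of_getElem? p)
      | succ m' ih =>
        obtain ⟨c', -, t0, a, b, A, B, v⟩ := hN.rm (fun _ => True) (t := t) (by simp) ⟨c, cells_o (List.mem_of_getElem? p), trivial⟩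
        rcases v.ks false i with ⟨j, f⟩ | ⟨j, -, f⟩
        · rw [f]
          refine ih t0 j ((to1 f).symm.trans e) ((hN.nm0 f).symm.trans p) ?_
          rw [(hN.up_c v).2, Set.ncard_insert_of_notMem (hN.up_c v).1 (hN.inv t0).fin] at m
          omega
        · obtain rfl := (Ce.o_inj (Option.some.inj (p.symm.trans f))).1
          obtain ⟨y, L', p1, p2, p3⟩ := un v
          obtain rfl := hN.idx (e := false) (j := a.length) (hN.val (e0.trans e.symm) l0) (by rw [p, ← hz, p3])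
          refine ⟨_, ⟨t0, t, a, _, _, b, v.st, (sd v.st).trans e, rfl, rfl⟩, ?_⟩
          rw [hd _ _ p2]
          have := (lp_zero p1).2
          omega)
    (by
      rintro _ ⟨t, i, e, rfl⟩ k
      obtain ⟨y, p⟩ := hN.get (hN.val (e0.trans e.symm) l0)
      rw [hd _ y ((hz t i).trans p)] at k
      have n := hN.nm (e.trans e0.symm)
      rw [p, ← hz, r0] at n
      simp only [Option.map_some, ph, cond_true, lp_ini, Option.some.injEq] at n
      rcases dp_cases y with w | ⟨c, z, L, w, rfl⟩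
      · exact zi _ _ y ((hz t i).trans p) (by rw [r0, ← n, w.1])
      · have := (lp_zero w).2
        omega)
    ⟨o, i0, e0, rfl⟩ (by rw [hd _ _ r0]; rfl)
  exact no_z2 φ k

theorem main (X : Sys R G T) (o : T) (ι : Multiplicative (ℤ × ℤ) →* G) (hι : Function.Injective ι)
    (cc : ∀ z, (∀ g, (∀ a, Commute g (ι a)) → Commute g z) → z ∈ ι.range)
    (sp : ∀ c ∈ ({(1, 0), (0, 1), (1, 1)} : Set (ℤ × ℤ)), ∃ h, Commute h (ι (.ofAdd c)) ∧
      ∀ j, 0 < j → ∀ a, Commute (h ^ j) (ι a) → a ∈ Subgroup.zpowers (.ofAdd c)) : False := by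
  have st : ∀ a ≠ 1, ∃ μ, X.Hyp (ι a) μ ∧ ι a ∈ X.RR μ := fun a h => start o (by simpa [hι.eq_iff' ι.map_one] using h)
  have cm : ∀ a b, Commute (ι a) (ι b) := fun a b => (Commute.all a b).map ι
  have sl : ∀ a μ, X.Hyp (ι a) μ → ι a ∈ X.RR μ → ∀ b, ∃ b1 b2, ι b1 ∈ X.LL μ ∧ ι b2 ∈ X.RR μ ∧ b = b1 * b2 := fun a μ h k b => by
    obtain ⟨l, i, ρ, j, e⟩ := split h.1 (fix_start h k (cm b a))
    obtain ⟨b1, rfl⟩ := cc l fun g p => (comm_part h.1 i j (fix_start h k (p a)) (e ▸ p b)).1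
    exact ⟨b1, b1⁻¹ * b, i, by simpa [e] using j, by simp⟩
  have dj : ∀ {μ a}, (X.Z true μ).Nonempty → ι a ∈ X.LL μ → ι a ∈ X.RR μ → a = 1 := fun v i j => hι (by rw [disj' v i j, map_one])
  obtain ⟨a, a0, μ, h1, h2, α, α1, α2⟩ : ∃ a ≠ 1, ∃ μ, X.Hyp (ι a) μ ∧ ι a ∈ X.RR μ ∧ ∃ α ≠ 1, ι α ∈ X.LL μ := by
    by_contra! n
    have : ∀ a ≠ 1, ∀ μ, X.Hyp (ι a) μ → ι a ∈ X.RR μ → ∀ b, ι b ∈ X.RR μ := fun a i μ h k b => by
      obtain ⟨b1, b2, p, q, rfl⟩ := sl a μ h k b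
      obtain rfl : b1 = 1 := by_contra fun r => n a i μ h k b1 r p
      simpa using q
    obtain ⟨μ, h, k⟩ := st (.ofAdd (1, 0)) (by decide)
    refine no_free ι (μ := μ) fun a i => ?_
    obtain ⟨ν, h', k'⟩ := st a i
    exact uniq h' h (this _ (by decide) _ h k a) (this a i _ h' k' _) ▸ h'
  have tf : ∀ (b : Multiplicative (ℤ × ℤ)) (n : ℤ), n ≠ 0 → b ^ n = 1 → b = 1 := fun b n i j => by simpa [i] using j
  have s2 : ∀ β ≠ 1, ι β ∈ X.RR μ → X.Hyp (ι β) μ := fun β i j => by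
    obtain ⟨ν, h', k'⟩ := st β i
    obtain ⟨l, ρ, p, q, e⟩ := sl β ν h' k' a
    obtain ⟨m, n, m0, r⟩ : ∃ m n : ℤ, m ≠ 0 ∧ a ^ m = β ^ n := by
      obtain ⟨⟨a1, a2⟩, rfl⟩ := Multiplicative.ofAdd.surjective a
      obtain ⟨⟨b1, b2⟩, rfl⟩ := Multiplicative.ofAdd.surjective β
      obtain ⟨⟨c1, c2⟩, rfl⟩ := Multiplicative.ofAdd.surjective α
      have d : a1 * b2 - a2 * b1 = 0 := by_contra fun d => α1 (tf _ _ d (dj h1.1 (by simpa using zpow_mem α2 _) (by
        have := mul_mem (zpow_mem h2 (c1 * b2 - c2 * b1)) (zpow_mem j (a1 * c2 - a2 * c1))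
        rw [← map_zpow ι, ← map_zpow ι, ← map_mul ι] at this
        convert this using 2
        simp only [← ofAdd_zsmul, ← ofAdd_add, Prod.smul_mk, smul_eq_mul, Prod.mk_add_mk]
        congr 2 <;> ring)))
      by_cases z : b1 = 0
      · refine ⟨b2, a2, fun w => i (by simp [z, w]), ?_⟩
        simp only [← ofAdd_zsmul, Prod.smul_mk, smul_eq_mul]
        congr 2 <;> linarith
      · refine ⟨b1, a1, z, ?_⟩
        simp only [← ofAdd_zsmul, Prod.smul_mk, smul_eq_mul]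
        congr 2 <;> linarith
    obtain rfl : l = 1 := tf l m m0 (dj h'.1 (by simpa using zpow_mem p m) (by
      have := mul_mem (zpow_mem k' n) (inv_mem (zpow_mem q m))
      rwa [← map_zpow ι, ← r, e, mul_zpow, ← map_zpow ι, ← map_inv ι, ← map_mul ι, mul_inv_cancel_right] at this))
    exact uniq h' h1 j (by simpa [e] using q) ▸ h'
  have s3 : ∀ c ∈ ({(1, 0), (0, 1), (1, 1)} : Set (ℤ × ℤ)), ι (.ofAdd c) ∈ X.LL μ ∨ ι (.ofAdd c) ∈ X.RR μ := fun c i => by
    obtain ⟨h, k1, k2⟩ := sp c i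
    obtain ⟨c1, c2, p, q, e⟩ := sl a μ h1 h2 (.ofAdd c)
    by_cases z1 : c1 = 1
    · exact .inr (by simpa [e, z1] using q)
    by_cases z2 : c2 = 1
    · exact .inl (by simpa [e, z2] using p)
    have H := s2 c2 z2 q
    have H' : X.Hyp (ι (.ofAdd c)) μ := ⟨H.1, by rw [e, map_mul, mul_smul, q.1, p.1], fun t i f r => H.2.2 t i f (by
      obtain ⟨t', i', l, f'⟩ := H.1
      obtain ⟨N, hN⟩ := X.chart o
      rw [← r, e, map_mul, mul_smul, p.2 _ i (by rw [← smul_q, f, q.1]) i le_rfl (by rw [ln_act]; exact hN.val (f'.trans f.symm) l)])⟩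
    obtain ⟨j, j0, f⟩ := hyp_pow o H' k1
    obtain ⟨w1, w2⟩ := comm_part H.1 p q f (by rw [← map_mul, ← e]; exact k1.pow_left j)
    obtain ⟨m, rfl⟩ := k2 j j0 c1 w1
    obtain ⟨n, rfl⟩ := k2 j j0 c2 w2
    have := dj H.1 (map_zpow ι _ n ▸ zpow_mem p n) (by
      have := zpow_mem q m
      rwa [← map_zpow ι, ← zpow_mul, mul_comm n m, zpow_mul] at this)
    exact (z1 (tf _ n (fun r => z2 (by simp [r])) this)).elim
  have s4 : ∀ K : Subgroup G, ι (.ofAdd (1, 0)) ∈ K → ι (.ofAdd (0, 1)) ∈ K → ∀ b, ι b ∈ K := fun K i j b => by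
    have := mul_mem (zpow_mem i b.toAdd.1) (zpow_mem j b.toAdd.2)
    rw [← map_zpow ι, ← map_zpow ι, ← map_mul ι] at this
    convert this using 2
    simp [← ofAdd_zsmul, ← ofAdd_add]
  have e : ι (.ofAdd (1, 1)) = ι (.ofAdd (1, 0)) * ι (.ofAdd (0, 1)) := by rw [← map_mul]; rfl
  have s5 : (∀ b, ι b ∈ X.LL μ) ∨ ∀ b, ι b ∈ X.RR μ := by
    rcases s3 (1, 0) (by simp) with p | p <;> rcases s3 (0, 1) (by simp) with q | q <;> rcases s3 (1, 1) (by simp) with r | r <;> rw [e] at r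
    exacts [.inl (s4 _ p q), .inl (s4 _ p q), .inl (s4 _ p ((mul_mem_cancel_left p).1 r)), .inr (s4 _ ((mul_mem_cancel_right q).1 r) q),
      .inl (s4 _ ((mul_mem_cancel_right q).1 r) q), .inr (s4 _ p ((mul_mem_cancel_left p).1 r)), .inr (s4 _ p q), .inr (s4 _ p q)]
  rcases s5 with p | p
  exacts [a0 (dj h1.1 (p a) h2), α1 (dj h1.1 α2 (p α))]

end Sys

end Pool.Agent.H.MP_8a4945_al
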