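import Pool.Agent.H.MP_8a4945_al.A
import Pool.Agent.Lib.helper22.DG2

namespace Pool.Agent.H.MP_8a4945_al

open CategoryTheory Pool.Agent.Lib.DG

variable {S : Type} {R : Set (Rl S)} {w : List S}

def TT (R : Set (Rl S)) (w : List S) : Type := Σ p : W R, (ob R ⟨w⟩ ⟶ ob R p)

noncomputable instance : MulAction (D R w) (TT R w) where
  smul g t := ⟨t.1, (g⁻¹ : D R w) ≫ t.2⟩
  one_smul t := congrArg (Sigma.mk t.1) ((congrArg (fun x : D R w => x ≫ t.2) inv_one).trans (Category.id_comp _))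
  mul_smul g h t := congrArg (Sigma.mk t.1) ((congrArg (fun x : D R w => x ≫ t.2) (mul_inv_rev g h)).trans (Category.assoc ..))

theorem smul_def (g : D R w) (t : TT R w) : g • t = ⟨t.1, (g⁻¹ : D R w) ≫ t.2⟩ := rfl

def St0 (t t' : TT R w) (a : List S) (r : Rl S) (b : List S) : Prop := ∃ e : t.1 ⟶ t'.1, e.1 = (a, r, b) ∧ t'.2 = t.2 ≫ ed e

theorem St0.wd {t t' : TT R w} {a r b} (h : St0 t t' a r b) : r ∈ R ∧ t.1.w = a ++ r.1 ++ b ∧ t'.1.w = a ++ r.2 ++ b := by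
  obtain ⟨⟨e, h⟩, rfl, -⟩ := h
  exact h

noncomputable def sys (hR : ∀ r ∈ R, r.1 ≠ [] ∧ r.2 ≠ []) (w : List S) : Sys R (D R w) (TT R w) where
  word t := t.1.w
  St t t' a r d b := cond d (St0 t t' a r b) (St0 t' t a r b)
  ne r h d := by cases d; exacts [(hR r h).2, (hR r h).1]
  sym {_ _ _ _ d _} h := by cases d <;> exact h
  fn {t t' t'' a r d b} h k := by
    obtain ⟨⟨p⟩, f⟩ := t
    obtain ⟨⟨p'⟩, f'⟩ := t'
    obtain ⟨⟨p''⟩, f''⟩ := t''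
    cases d
    · obtain rfl : p' = p'' := (St0.wd h).2.1.trans (St0.wd k).2.1.symm
      obtain ⟨e, h, i⟩ := h
      obtain ⟨e', k, j⟩ := k
      obtain rfl : e = e' := Subtype.ext (h.trans k.symm)
      exact congrArg _ ((cancel_mono _).1 (i.symm.trans j))
    · obtain rfl : p' = p'' := (St0.wd h).2.2.trans (St0.wd k).2.2.symm
      obtain ⟨e, h, i⟩ := h
      obtain ⟨e', k, j⟩ := k
      obtain rfl : e = e' := Subtype.ext (h.trans k.symm)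
      exact congrArg _ (i.trans j.symm)
  ex {t a r d b} h k := by
    cases d
    · let e : (⟨a ++ r.1 ++ b⟩ : W R) ⟶ t.1 := ⟨(a, r, b), h, rfl, k⟩
      exact ⟨⟨_, t.2 ≫ inv (ed e)⟩, e, rfl, by simp⟩
    · let e : t.1 ⟶ (⟨a ++ r.2 ++ b⟩ : W R) := ⟨(a, r, b), h, k, rfl⟩
      exact ⟨⟨_, t.2 ≫ ed e⟩, e, rfl, rfl⟩
  wd {_ _ _ _ d _} h := by cases d; exacts [⟨(St0.wd h).1, (St0.wd h).2.2⟩, ⟨(St0.wd h).1, (St0.wd h).2.1⟩]
  sq0 {t t1 t2 t3 t4 a r m r' b} h1 h2 h3 h4 := by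
    obtain ⟨⟨p⟩, f⟩ := t2
    obtain ⟨⟨p'⟩, f'⟩ := t4
    obtain rfl : p = p' := (St0.wd h2).2.2.trans (Eq.trans (by simp) (St0.wd h4).2.2.symm)
    obtain ⟨e1, h1, i1⟩ := h1
    obtain ⟨e2, h2, i2⟩ := h2
    obtain ⟨e3, h3, i3⟩ := h3
    obtain ⟨e4, h4, i4⟩ := h4
    refine congrArg _ (i2.trans (Eq.trans ?_ i4.symm))
    rw [i1, i3, Category.assoc, Category.assoc, sq e1 e2 e3 e4 a m b r r' h1 h2 h3 h4]
  con o P h k t := by
    have := ind (p := o.1) (fun q f => P ⟨q, o.2 ≫ f⟩) (by simpa using h)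
      (fun q s f e i => k _ _ e.1.1 e.1.2.1 true e.1.2.2 ⟨e, rfl, by simp⟩ i)
      (fun q s f e i => k _ _ e.1.1 e.1.2.1 false e.1.2.2 ⟨e, rfl, by simp⟩ i) (inv o.2 ≫ t.2)
    simpa using this
  sact g {_ _ _ _ d _} h := by
    cases d <;> obtain ⟨e, h, i⟩ := h <;> exact ⟨e, h, by simp only [smul_def, i, Category.assoc]⟩
  wact _ _ := rfl
  free g t h := by
    have : (g⁻¹ : D R w) ≫ t.2 = t.2 := eq_of_heq (Sigma.mk.inj h).2
    exact inv_eq_one.1 ((cancel_mono t.2).1 (this.trans (Category.id_comp _).symm))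
  tr := by
    rintro ⟨⟨p⟩, f⟩ ⟨⟨p'⟩, f'⟩ (rfl : p = p')
    let g : D R w := f' ≫ inv f
    exact ⟨g⁻¹, congrArg (Sigma.mk _) ((congrArg (fun x : D R w => x ≫ f) (inv_inv g)).trans (by simp [g]))⟩
  lift H _ σ h := by
    obtain ⟨Φ, k⟩ := lift σ h
    exact ⟨fun t => Φ.map t.2, fun t t' a r b ⟨e, i, j⟩ => (congrArg Φ.map j).trans (by rw [Φ.map_comp, k, i]; rfl)⟩

end Pool.Agent.H.MP_8a4945_al
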