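import Pool.Agent.H.MP_8a4945_al.A
import Pool.Agent.H.MP_f02a84_al.Main

namespace Pool.Agent.H.MP_8a4945_al

open MP_f02a84_al Multiplicative

theorem univ {S : Type} {R : Set (Rl S)} {G T : Type} [Group G] [MulAction G T] (X : Sys R G T) (o : T) {w : List S}
    (ho : X.word o = w) (hR : ∀ p ∈ R, p.swap ∉ R) : ∃ (E : List S → List S → List S → List S → G)
    (Re : List S → Prop), Lab R E ∧ Re w ∧
    (∀ l u v r, Ru R u v → Re (l ++ u ++ r) → Re (l ++ v ++ r)) ∧
    (∀ Q : List S → G → Prop, Q w 1 →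
      (∀ l u v r g, Ru R u v → Q (l ++ u ++ r) g → Q (l ++ v ++ r) (g * E l u v r)) →
      ∀ g, Q w g) ∧
    ∀ (H : Type) [Group H] (E0 : List S → List S → List S → List S → H), Lab R E0 →
      ∃ (Φ : G →* H) (c : List S → H), ∀ l u v r, Ru R u v → Re (l ++ u ++ r) →
        Φ (E l u v r) = c (l ++ u ++ r) * E0 l u v r * (c (l ++ v ++ r))⁻¹ := by
  classical
  let Re : List S → Prop := fun x => ∃ t, X.word t = x
  have : Nonempty T := ⟨o⟩
  choose! τ hτ using fun x (h : Re x) => h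
  have ru : ∀ {u v}, Ru R u v → ∃ r ∈ R, ∃ d, u = src r d ∧ v = src r (!d) := fun h =>
    h.elim (fun h => ⟨_, h, true, rfl, rfl⟩) fun h => ⟨_, h, false, rfl, rfl⟩
  have ur : ∀ r ∈ R, ∀ d, Ru R (src r d) (src r (!d)) := fun r h d => by cases d; exacts [.inr h, .inl h]
  have rs : ∀ {l r d b}, r ∈ R → Re (l ++ src r d ++ b) → Re (l ++ src r (!d) ++ b) := fun h ⟨t, k⟩ =>
    let ⟨t', i⟩ := X.ex h k; ⟨t', X.wd' i⟩
  obtain ⟨E, h1, h2⟩ : ∃ E : List S → List S → List S → List S → G, (∀ l u v b, ¬ Re (l ++ u ++ b) → E l u v b = 1) ∧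
      ∀ l b d, ∀ r ∈ R, Re (l ++ src r d ++ b) →
        X.St (τ (l ++ src r d ++ b)) (E l (src r d) (src r (!d)) b • τ (l ++ src r (!d) ++ b)) l r d b := by
    let P := fun l u v b (g : G) => ∀ d, ∀ r ∈ R, u = src r d → v = src r (!d) → X.St (τ (l ++ u ++ b)) (g • τ (l ++ v ++ b)) l r d b
    refine ⟨fun l u v b => if Re (l ++ u ++ b) then Classical.epsilon (P l u v b) else 1, fun _ _ _ _ h => if_neg h,
      fun l b d r h k => ?_⟩
    simp only [if_pos k]
    refine Classical.epsilon_spec (p := P l _ _ b) ?_ d r h rfl rfl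
    obtain ⟨t', i⟩ := X.ex h (hτ _ k)
    obtain ⟨g, rfl⟩ := X.tr _ t' ((hτ _ (rs h k)).trans (X.wd' i).symm)
    refine ⟨g, fun d' r' h' e e' => ?_⟩
    obtain ⟨rfl, rfl⟩ : r = r' ∧ d = d' := by
      cases d <;> cases d'
      exacts [⟨Prod.ext e' e, rfl⟩, (hR r h ((Prod.ext e e' : r.swap = r') ▸ h')).elim,
        (hR r h ((Prod.ext e' e : r.swap = r') ▸ h')).elim, ⟨Prod.ext e e', rfl⟩]
    exact i
  have h3 : ∀ {g g' : G} {t}, g • t = g' • t → g = g' := fun {g g' t} h =>
    (inv_mul_eq_one.1 (X.free _ t (by rw [mul_smul, ← h, inv_smul_smul])))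
  refine ⟨E, Re, ⟨fun l u v b h => ?_, fun a u v m p q b h h' => ?_⟩, ⟨o, ho⟩, fun l u v b h => ?_, fun Q q0 q1 g => ?_,
    fun H _ E0 h0 => ?_⟩
  · obtain ⟨r, i, d, rfl, rfl⟩ := ru h
    by_cases k : Re (l ++ src r d ++ b)
    · have := X.sact (E l (src r d) (src r (!d)) b) (h2 l b (!d) r i (rs i k))
      rw [Bool.not_not, ← mul_smul] at this
      exact X.free _ _ (X.fn this (X.sym (h2 l b d r i k)))
    · rw [h1 _ _ _ _ k, h1 _ _ _ _ fun j => k (by simpa using rs i j), one_mul]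
  · obtain ⟨r, i, d, rfl, rfl⟩ := ru h
    obtain ⟨r', i', d', rfl, rfl⟩ := ru h'
    by_cases k : Re (a ++ src r d ++ (m ++ src r' d' ++ b))
    · have k1 := h2 _ _ _ _ i k
      have k2 := X.sact (E a (src r d) (src r (!d)) (m ++ src r' d' ++ b)) (h2 (a ++ src r (!d) ++ m) b d' _ i' (by simpa using rs i k))
      have k0 : Re (a ++ src r d ++ m ++ src r' d' ++ b) := by simpa using k
      have k3 := h2 _ _ _ _ i' k0
      have k4 := X.sact (E (a ++ src r d ++ m) (src r' d') (src r' (!d')) b) (h2 a (m ++ src r' (!d') ++ b) d _ i (by simpa using rs i' k0))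
      simp only [← List.append_assoc, ← mul_smul] at k1 k2 k3 k4
      exact h3 (X.fn (X.sq k1 k2 k3) k4)
    · have k1 : ¬ Re (a ++ src r (!d) ++ m ++ src r' d' ++ b) := fun j => k (by
        simpa using rs (l := a) (d := !d) (b := m ++ src r' d' ++ b) i (by simpa using j))
      have k2 : ¬ Re (a ++ src r d ++ (m ++ src r' (!d') ++ b)) := fun j => k (by
        simpa using rs (l := a ++ src r d ++ m) (d := !d') (b := b) i' (by simpa using j))
      rw [h1 _ _ _ _ k, h1 _ _ _ _ k1, h1 _ _ _ _ k2, h1 _ _ _ _ (by simpa using k)]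
  · obtain ⟨r, i, d, rfl, rfl⟩ := ru h
    exact rs i
  · have e := hτ w ⟨o, ho⟩
    have := X.con (τ w) (fun t => ∀ g : G, t = g • τ (X.word t) → Q (X.word t) g)
      (fun g k => by rw [e] at k ⊢; rw [X.free g _ k.symm]; exact q0) (fun t t' l r d b i j g' k => by
        obtain ⟨i1, i2⟩ := X.wd i
        obtain ⟨g, m⟩ := X.tr (τ (X.word t)) t (hτ _ ⟨t, rfl⟩)
        have := j g m.symm
        have n := X.sact g (h2 l b d r i1 ⟨t, i2⟩)
        rw [← i2, m, ← mul_smul] at n
        rw [X.wd' i] at k ⊢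
        rw [h3 (k.symm.trans (X.fn i n))]
        exact q1 _ _ _ _ _ (ur r i1 d) (i2 ▸ this)) (g • τ w) g
    rw [X.wact, e] at this
    exact this rfl
  · obtain ⟨ev, h⟩ := X.lift H (fun e => (E0 e.1 e.2.1.1 e.2.1.2 e.2.2)⁻¹) fun a b c r i r' j => by
      rw [← mul_inv_rev, ← mul_inv_rev, h0.sq _ _ _ _ _ _ _ (.inl i) (.inl j)]
    have k : ∀ {t t' l r d b}, X.St t t' l r d b → (ev t')⁻¹ = (ev t)⁻¹ * E0 l (src r d) (src r (!d)) b := fun {t t' l r d b} i => by
      cases d
      · rw [h _ _ _ _ _ (X.sym i), mul_inv_rev, inv_inv, mul_assoc]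
        exact (mul_one _).symm.trans (congrArg _ (h0.rev _ _ _ _ (.inl (X.wd i).1)).symm)
      · rw [h _ _ _ _ _ i, mul_inv_rev, inv_inv]; rfl
    have k' : ∀ (g : G) t, (ev (g • t))⁻¹ = (ev (g • o))⁻¹ * ev o * (ev t)⁻¹ := fun g =>
      X.con o _ (by simp) fun t t' l r d b i j => by rw [k (X.sact g i), k i, j, mul_assoc _ _ (E0 ..)]
    refine ⟨MonoidHom.mk' (fun g => (ev (g • o))⁻¹ * ev o) fun g g' => by rw [mul_smul, k' g, mul_assoc],
      fun x => (ev (τ x))⁻¹, fun l u v b h j => ?_⟩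
    obtain ⟨r, i, d, rfl, rfl⟩ := ru h
    rw [← k (h2 l b d r i j), k', mul_inv_cancel_right]
    rfl

open Ltr

theorem main {G T : Type} [Group G] [MulAction G T] (X : Sys RR G T) (o : T) (ho : X.word o = [a, b]) :
    ∃ (t : G) (κ : K →* G) (Φ : G →* Wr) (χ : G →* Multiplicative ℤ), Function.Injective Φ ∧ (∀ x, Φ (κ x) = dl 0 x) ∧
    Φ t = t0 ∧ ∀ p, χ (κ (.of p)) = ofAdd 1 := by
  obtain ⟨E, Re, hE, r0, r1, hQ, hΦ⟩ := univ X o ho fun p h => (pres.2 p h).2.2
  obtain ⟨Φ, d, hd⟩ := hΦ Wr E0 lab0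
  have ra : Ru RR [a] [a, l 0] := by simp [ru_iff]
  have rb : Ru RR [b] [l 0, b] := by simp [ru_iff]
  have rl : ∀ {i j}, i ≠ j → Ru RR [l i] [l j] := fun h => by simpa [ru_iff] using h
  let L : List (Fin 4) → Fin 4 → Fin 4 → List (Fin 4) → G :=
    fun u i j v => if i = j then 1 else E (a :: u.map l) [l i] [l j] (v.map l ++ [b])
  obtain ⟨c, t, k, c0, c1, c2, c3, c4, ht, k0, hk⟩ := core
    (fun u => E [] [a] [a, l 0] (u.map l ++ [b])) (fun u => E (a :: u.map l) [b] [l 0, b] []) L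
    (fun _ _ _ => if_pos rfl)
    (fun u i j v => by
      by_cases h : i = j
      · simp [L, h]
      · simpa [L, h] using hE.sq [] _ _ (u.map l) _ _ (v.map l ++ [b]) ra (rl h))
    (fun u i j v m n z => by
      by_cases h : i = j
      · simp [L, h]
      by_cases h' : m = n
      · simp [L, h']
      simpa [L, h, h'] using hE.sq (a :: u.map l) _ _ (v.map l) _ _ (z.map l ++ [b]) (rl h) (rl h'))
    (fun u i j v => by
      by_cases h : i = j
      · simp [L, h]
      simpa [L, h] using hE.sq (a :: u.map l) _ _ (v.map l) _ _ [] (rl h) rb)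
    (fun u => by simpa using hE.sq [] _ _ (u.map l) _ _ [] ra rb)
  let κ : K →* G := FreeGroup.lift fun p => k p.1.1 p.1.2
  have r2 : Re [a, l 0, b] := r1 [] _ _ [b] ra r0
  have r3 : ∀ i, Re [a, l i, b] := fun i => by
    by_cases h : 0 = i
    · exact h ▸ r2
    · exact r1 [a] _ _ [b] (rl h) r2
  have p1 := hd [] _ _ [b] ra r0
  have p2 := hd [a] _ _ [] rb r0
  have p3 : ∀ i j, Φ (L [] i j []) = d [a, l i, b] * dl 0 (gen i j) * (d [a, l j, b])⁻¹ := by
    intro i j
    by_cases h : i = j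
    · have : gen j j = 1 := by simp [gen]
      simp [L, h, this, dl_one]
    · simpa [L, h, E0, gd] using hd [a] _ _ [b] (rl h) (r3 i)
  have g0 : ∀ i, gen 0 i = 1 := fun i => by simp [gen]
  let Ψ := (MulAut.conj (d [a, b])⁻¹).toMonoidHom.comp Φ
  have hΨ : ∀ x, Ψ x = (d [a, b])⁻¹ * Φ x * (d [a, b])⁻¹⁻¹ := fun _ => rfl
  have q0 : ∀ i j, Ψ (k i j) = dl 0 (gen i j) := by
    intro i j
    simp only [List.map_nil, List.nil_append] at hk
    simp [hΨ, hk, p1, p3, g0, dl_one, E0, mul_assoc]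
  have q1 : ∀ x, Ψ (κ x) = dl 0 x := by
    intro x
    induction x using FreeGroup.induction_on with
    | C1 => simp [dl_one]
    | of p => simp [κ, q0, gen, p.2]
    | inv_of p h => rw [map_inv, map_inv, h, inv_eq_iff_mul_eq_one, dl_mul, mul_inv_cancel, dl_one]
    | mul x y h1 h2 => rw [map_mul, map_mul, h1, h2, dl_mul]
  have q2 : Ψ t = t0 := by
    simp only [List.map_nil, List.nil_append] at ht
    simp [hΨ, ht, p1, p2, E0, mul_assoc]
  have cm : ∀ (n : ℕ) x y, Commute ((t ^ (n + 1))⁻¹ * κ x * t ^ (n + 1)) (κ y) := by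
    intro n x y
    induction x using FreeGroup.induction_on with
    | C1 => simp
    | of p =>
      induction y using FreeGroup.induction_on with
      | C1 => simp
      | of q => simpa only [κ, FreeGroup.lift_apply_of] using c4 n _ _ _ _
      | inv_of q h => simpa only [map_inv] using h.inv_right
      | mul x y h1 h2 => simpa only [map_mul] using h1.mul_right h2
    | inv_of p h => simpa [mul_assoc] using h.inv_left
    | mul x y h1 h2 => simpa [mul_assoc] using h1.mul_left h2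
  let φ : K →* Multiplicative ℤ := FreeGroup.lift fun _ => ofAdd 1
  let E1 : List Ltr → List Ltr → List Ltr → List Ltr → Multiplicative ℤ := fun _ u v _ =>
    match u, v with
    | [.l i], [.l j] => φ (gen i j)
    | _, _ => 1
  obtain ⟨χ, d', hd'⟩ := hΦ _ E1 ⟨fun s u v r h => by
    rcases (ru_iff _ _).1 h with ⟨rfl, rfl⟩ | ⟨rfl, rfl⟩ | ⟨rfl, rfl⟩ | ⟨rfl, rfl⟩ | ⟨i, j, -, rfl, rfl⟩ <;>
      simp only [E1, mul_one, ← map_mul, gen_rev, map_one], fun _ _ _ _ _ _ _ _ _ => mul_comm ..⟩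
  have p4 : ∀ i j, χ (L [] i j []) = d' [a, l i, b] * φ (gen i j) * (d' [a, l j, b])⁻¹ := by
    intro i j
    by_cases h : i = j
    · have : gen j j = 1 := by simp [gen]
      simp [L, h, this]
    · simpa [L, h, E1] using hd' [a] _ _ [b] (rl h) (r3 i)
  have q3 : ∀ p, χ (κ (.of p)) = ofAdd 1 := fun p => by
    simp only [List.map_nil, List.nil_append] at hk
    simp [κ, hk, p4, mul_assoc, gen, p.2, φ]
    rw [mul_left_comm (ofAdd 1), mul_inv_cancel_left, mul_left_comm, mul_inv_cancel, mul_one]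
  refine ⟨t, κ, Ψ, χ, wr_inj t κ cm ?_ Ψ q2 q1, q1, q2, q3⟩
  rw [eq_top_iff]
  intro g _
  generalize hH : Subgroup.closure ({t} ∪ Set.range κ) = H
  have tH : t ∈ H := hH ▸ Subgroup.subset_closure (Or.inl rfl)
  have kr : ∀ i j, k i j * k j i = 1 := by
    intro i j
    have : L [] i j [] * L [] j i [] = 1 := by
      by_cases h : i = j
      · simp [L, h]
      · simpa [L, h, Ne.symm h] using hE.rev _ _ _ _ (rl h)
    rw [hk, hk]
    simp only [mul_assoc, inv_mul_cancel_left, mul_inv_rev]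
    rw [← mul_assoc (L [] i j []), this]
    group
  have kH : ∀ i j, k i j ∈ H := by
    have : ∀ i j, i < j → k i j ∈ H := by
      intro i j h
      by_cases h0 : i = 0
      · rw [h0, k0]
        exact one_mem _
      · exact hH ▸ Subgroup.subset_closure (Or.inr
          ⟨FreeGroup.of ⟨(i, j), Fin.pos_iff_ne_zero.2 h0, h⟩, by simp [κ]⟩)
    intro i j
    rcases lt_trichotomy i j with h | rfl | h
    · exact this _ _ h
    · simp [hk, L, one_mem]
    · rw [eq_inv_of_mul_eq_one_left (kr i j)]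
      exact inv_mem (this _ _ h)
  obtain ⟨u, hu, hg⟩ := hQ (fun x g => ∃ u : List (Fin 4), x = a :: (u.map l ++ [b]) ∧
    g * (c u)⁻¹ ∈ H) ⟨[], rfl, by simp [c0]⟩ (by
      rintro s u v r g h ⟨w, hw, hg⟩
      have hr := eq_inv_of_mul_eq_one_left (hE.rev s u v r h)
      rcases (ru_iff _ _).1 h with ⟨rfl, rfl⟩ | ⟨rfl, rfl⟩ | ⟨rfl, rfl⟩ | ⟨rfl, rfl⟩ |
        ⟨i, j, hij, rfl, rfl⟩ <;>
      simp only [List.append_assoc, List.cons_append, List.nil_append] at hw <;>
      rcases parse hw with ⟨rfl, h1, h2⟩ | ⟨u1, m, u2, rfl, rfl, h1, h2⟩ | ⟨rfl, h1, h2⟩ <;>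
      (try cases h1) <;> (try cases h2)
      · exact ⟨0 :: w, by simp, by simpa [c1, mul_assoc] using hg⟩
      · cases w with
        | nil => simp at h2
        | cons m w =>
          simp only [List.map_cons, List.cons_append, List.cons.injEq, l.injEq] at h2
          obtain ⟨rfl, rfl⟩ := h2
          exact ⟨w, by simp, by simpa [c1, mul_assoc, hr] using hg⟩
      · refine ⟨w ++ [0], by simp, ?_⟩
        have := mul_mem hg tH
        rw [← mul_inv_eq_iff_eq_mul.2 (c2 w)] at this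
        simpa only [mul_assoc, inv_mul_cancel_left] using this
      · cases u2 with
        | cons m w => simp at h2
        | nil =>
          simp only [List.map_nil, List.nil_append, List.cons.injEq, true_and] at h2
          subst h2
          refine ⟨u1, by simp, ?_⟩
          have := mul_mem hg (inv_mem tH)
          rw [← mul_inv_eq_iff_eq_mul.2 (c2 u1)] at this
          simpa [hr, mul_assoc] using this
      · refine ⟨u1 ++ j :: u2, by simp, ?_⟩
        have := mul_mem hg (mul_mem (mul_mem (inv_mem (pow_mem tH u2.length)) (kH i j))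
          (pow_mem tH u2.length))
        rw [← mul_inv_eq_iff_eq_mul.2 (c3 u1 i j u2)] at this
        simpa [L, hij, mul_assoc] using this) g
  cases u with
  | nil => simpa [c0] using hg
  | cons m u => simp at hu

end Pool.Agent.H.MP_8a4945_al
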