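import Pool.Agent.H.MP_8a4945_al.E
import Pool.Agent.H.MP_8a4945_al.G

namespace Pool.Agent.H.MP_8a4945_al

open MP_f02a84_al Multiplicative
open scoped commutatorElement

theorem cent {α : Type} (a : α) {z : FreeGroup α} (h : Commute (.of a) z) : ∃ n : ℤ, z = .of a ^ n := by
  classical
  let H := Subgroup.centralizer ({.of a} : Set (FreeGroup α))
  have mem : ∀ x, Commute (.of a) x → x ∈ H := fun x hx => Subgroup.mem_centralizer_singleton_iff.2 hx.symm.eq
  let e := IsFreeGroup.toFreeGroup H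
  by_cases k : Subsingleton (IsFreeGroup.Generators H)
  · obtain ⟨s, i⟩ : ∃ z : FreeGroup (IsFreeGroup.Generators H), ∀ a, .of a ∈ Subgroup.zpowers z := by
      by_cases j : Nonempty (IsFreeGroup.Generators H)
      exacts [⟨.of j.some, fun a => Subsingleton.elim a j.some ▸ Subgroup.mem_zpowers _⟩, ⟨1, fun a => (j ⟨a⟩).elim⟩]
    have : ∀ x, Commute (.of a) x → ∃ n : ℤ, (e.symm s).1 ^ n = x := fun x hx => by
      obtain ⟨n, j⟩ := (Subgroup.closure_le _).2 (Set.range_subset_iff.2 i) (FreeGroup.closure_range_of _ ▸ Subgroup.mem_top (e ⟨x, mem x hx⟩))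
      exact ⟨n, by rw [← Subgroup.coe_zpow, ← map_zpow, show s ^ n = _ from j]; simp⟩
    obtain ⟨m, j⟩ := this _ (.refl _)
    obtain ⟨n, rfl⟩ := this z h
    have l := congrArg (fun x => (FreeGroup.lift (fun _ => ofAdd (1 : ℤ)) x).toAdd) j
    simp only [map_zpow, toAdd_zpow, FreeGroup.lift_apply_of, toAdd_ofAdd, smul_eq_mul] at l
    refine ⟨m * n, ?_⟩
    rw [← j, ← zpow_mul, ← mul_assoc]
    rcases Int.eq_one_or_neg_one_of_mul_eq_one l with rfl | rfl <;> simp
  · obtain ⟨b, c, i⟩ := @exists_pair_ne _ (not_subsingleton_iff_nontrivial.1 k)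
    have : e ⟨_, mem _ (.refl _)⟩ = 1 := free_center i fun c => by
      have h1 : Commute (e.symm (.of c)) ⟨_, mem _ (.refl _)⟩ :=
        Subtype.ext (Subgroup.mem_centralizer_singleton_iff.1 (e.symm (.of c)).2)
      simpa using h1.map e
    exact absurd (congrArg Subtype.val (e.map_eq_one_iff.1 this)) (FreeGroup.of_ne_one a)

def Bad (Γ : Type) [Group Γ] : Prop := ∃ ι : Multiplicative (ℤ × ℤ) →* Γ, Function.Injective ι ∧
  (∀ z, (∀ g, (∀ a, Commute g (ι a)) → Commute g z) → z ∈ ι.range) ∧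
  ∀ c ∈ ({(1, 0), (0, 1), (1, 1)} : Set (ℤ × ℤ)), ∃ h, Commute h (ι (.ofAdd c)) ∧
    ∀ j, 0 < j → ∀ a, Commute (h ^ j) (ι a) → a ∈ Subgroup.zpowers (.ofAdd c)

theorem Bad.congr {Γ Γ' : Type} [Group Γ] [Group Γ'] (e : Γ ≃* Γ') : Bad Γ → Bad Γ' := by
  rintro ⟨ι, h1, h2, h3⟩
  refine ⟨e.toMonoidHom.comp ι, e.injective.comp h1, fun z k => ?_, fun c i => ?_⟩
  · obtain ⟨a, j⟩ := h2 (e.symm z) fun g l => by simpa using (k (e g) fun a => (l a).map e).map e.symm
    exact ⟨a, by simp [j]⟩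
  · obtain ⟨h, j, k⟩ := h3 c i
    exact ⟨e h, j.map e, fun n l a m => k n l a (by simpa using m.map e.symm)⟩

abbrev u0 : K := .of ⟨(1, 2), by decide⟩
abbrev u1 : K := .of ⟨(2, 3), by decide⟩
abbrev u2 : K := .of ⟨(1, 3), by decide⟩

theorem nc1 : ¬ Commute ⁅u0, u1⁆ ⁅u0, u2⁆ := fun h => absurd (congrArg FreeGroup.toWord h.eq) (by decide)
theorem nc2 : ¬ Commute u0 ⁅u0, u1⁆ := fun h => absurd (congrArg FreeGroup.toWord h.eq) (by decide)

theorem nc3 {j : ℕ} (h : 0 < j) {e : ℤ} (k : Commute (⁅u0, u1⁆ ^ j) (u0 ^ e)) : e = 0 := by_contra fun n =>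
  nc2 (free_ct (g := ⁅u0, u1⁆ ^ j) (fun l => nc2 (by rw [(pow_eq_one_iff_left h.ne').1 l]; exact .one_right _))
    (free_ct (g := u0 ^ e) (by simp [n]) k.symm (.zpow_self ..)) (.pow_self ..))

theorem bad_of {Γ : Type} [Group Γ] (Θ : Γ →* ℤ → K) (h : Function.Injective Θ)
    (h1 : ∀ i (a b : K), ∃ g, Θ g = Pi.mulSingle i ⁅a, b⁆) (x y : Γ) (hx : Θ x = Pi.mulSingle 0 u0 * Pi.mulSingle 1 u0⁻¹)
    (hy : Θ y = Pi.mulSingle 1 u0 * Pi.mulSingle 2 u0⁻¹)
    (h2 : ∀ z (a b c : ℤ), Θ z = Pi.mulSingle 0 (u0 ^ a) * Pi.mulSingle 1 (u0 ^ b) * Pi.mulSingle 2 (u0 ^ c) → a + b + c = 0) : Bad Γ := by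
  have cm : ∀ g z, Commute g z ↔ ∀ i, Commute (Θ g i) (Θ z i) := fun g z =>
    ⟨fun k i => congrFun (k.map Θ).eq i, fun k => h (by rw [map_mul, map_mul]; exact funext fun i => (k i).eq)⟩
  have c : Commute x y := (cm ..).2 fun i => by simp only [hx, hy, Pi.mul_apply, Pi.mulSingle_apply]; split_ifs <;> simp
  let ι : Multiplicative (ℤ × ℤ) →* Γ := MonoidHom.mk' (fun a => x ^ a.toAdd.1 * y ^ a.toAdd.2) fun a b => by
    simp only [toAdd_mul, Prod.fst_add, Prod.snd_add, zpow_add]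
    exact (c.zpow_zpow ..).mul_mul_mul_comm ..
  have e : ∀ m n i, Θ (ι (ofAdd (m, n))) i = u0 ^ (if i = 0 then m else if i = 1 then n - m else if i = 2 then -n else 0) := fun m n i => by
    change Θ (x ^ m * y ^ n) i = _
    simp only [map_mul, map_zpow, hx, hy, Pi.mul_apply, Pi.pow_apply, Pi.mulSingle_apply]
    split_ifs <;> first | omega | simp [← zpow_neg, ← zpow_add, neg_add_eq_sub]
  have zi : ∀ {m n : ℤ}, u0 ^ m = u0 ^ n → m = n := fun k => by
    simpa using congrArg (fun x => (FreeGroup.lift (fun _ => ofAdd (1 : ℤ)) x).toAdd) k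
  refine ⟨ι, (injective_iff_map_eq_one _).2 fun a k => ?_, fun z k => ?_, fun c i => ?_⟩
  · obtain ⟨⟨m, n⟩, rfl⟩ := ofAdd.surjective a
    have k0 := e m n 0
    have k2 := e m n 2
    simp only [k, map_one, Pi.one_apply] at k0 k2
    obtain rfl : m = 0 := by simpa using (zi ((zpow_zero _).trans k0)).symm
    obtain rfl : n = 0 := by simpa using (zi ((zpow_zero _).trans k2)).symm
    rfl
  · have k0 : ∀ m n i, Commute (Θ (ι (ofAdd (m, n))) i) (Θ z i) := fun m n => (cm ..).1 (k _ fun a => (Commute.all _ a).map ι)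
    obtain ⟨a, ha⟩ := cent _ (show Commute u0 (Θ z 0) by simpa [e] using k0 1 0 0)
    obtain ⟨b, hb⟩ := cent _ (show Commute u0 (Θ z 1) by simpa [e] using k0 0 1 1)
    obtain ⟨c, hc⟩ := cent _ (show Commute u0 (Θ z 2) by simpa [e] using k0 0 (-1) 2)
    have k1 : ∀ i, i ≠ 0 → i ≠ 1 → i ≠ 2 → Θ z i = 1 := fun i i0 i1 i2 => by
      have : ∀ p q, Commute (Θ z i) ⁅p, q⁆ := fun p q => by
        obtain ⟨g, l⟩ := h1 i p q
        have := (cm ..).1 (k g fun a => (cm ..).2 fun j => by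
          obtain ⟨⟨m, n⟩, rfl⟩ := ofAdd.surjective a
          rw [l, e, Pi.mulSingle_apply]
          split_ifs <;> first | omega | simp) i
        simpa [l] using this.symm
      exact by_contra fun n => nc1 (free_ct n (this ..) (this ..))
    have k2 := h2 z a b c (funext fun i => by
      simp only [Pi.mul_apply, Pi.mulSingle_apply]
      split_ifs <;> first | omega | simp [*])
    refine ⟨ofAdd (a, -c), h (funext fun i => ?_)⟩
    rw [e]
    split_ifs with i0 i1 i2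
    exacts [by rw [i0, ha], by rw [i1, hb]; congr 1; omega, by rw [i2, hc, neg_neg], by rw [k1 i i0 i1 i2, zpow_zero]]
  · have : ∀ k : ℤ, Θ (ι (ofAdd c)) k = 1 → (∀ m n, (if k = 0 then m else if k = 1 then n - m else if k = 2 then -n else 0) = 0 →
        ∃ l : ℤ, l • c = (m, n)) → ∃ h, Commute h (ι (.ofAdd c)) ∧
        ∀ j, 0 < j → ∀ a, Commute (h ^ j) (ι a) → a ∈ Subgroup.zpowers (.ofAdd c) := fun k k1 k2 => by
      obtain ⟨g, l⟩ := h1 k u0 u1
      refine ⟨g, (cm ..).2 fun j => ?_, fun j j0 a p => ?_⟩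
      · rw [l, Pi.mulSingle_apply]
        split_ifs with r <;> simp [r, k1]
      · obtain ⟨⟨m, n⟩, rfl⟩ := ofAdd.surjective a
        have := (cm ..).1 p k
        rw [e, map_pow, l, Pi.pow_apply, Pi.mulSingle_eq_same] at this
        obtain ⟨r, q⟩ := k2 m n (nc3 j0 this)
        exact ⟨r, congrArg ofAdd q⟩
    rcases i with rfl | rfl | rfl
    · exact this 2 (by simp [e]) fun m n k => ⟨m, by simp at k; simp [k]⟩
    · exact this 0 (by simp [e]) fun m n k => ⟨n, by simp at k; simp [k]⟩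
    · exact this 1 (by simp [e]) fun m n k => ⟨m, by simp at k; simp; omega⟩

open Ltr in
theorem bad {G T : Type} [Group G] [MulAction G T] (X : Sys RR G T) (o : T) (ho : X.word o = [a, b]) : Bad (commutator G) := by
  obtain ⟨t, κ, Φ, χ, h1, h2, h3, h4⟩ := main X o ho
  have r : ∀ z : commutator G, (Φ z).right = 1 := fun z =>
    Abelianization.commutator_subset_ker (RegularWreathProduct.rightHom.comp Φ) z.2
  let Θ : commutator G →* ℤ → K := MonoidHom.mk' (fun z i => (Φ z).left (ofAdd i)) fun p q => funext fun i => by simp [r]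
  let k : ℤ → K →* G := fun n => (MulAut.conj (t ^ n)⁻¹).toMonoidHom.comp κ
  have hk : ∀ n x, k n x = (t ^ n)⁻¹ * κ x * t ^ n := fun n x => congrArg ((t ^ n)⁻¹ * κ x * ·) (inv_inv _)
  have k1 : ∀ n x, Φ (k n x) = MP_f02a84_al.dl n x := fun n x => by
    rw [hk, map_mul, map_mul, map_inv, map_zpow, h2, h3]
    induction n with
    | zero => simp
    | succ n ih => rw [zpow_add_one, mul_inv_rev, ← mul_assoc, mul_assoc t0⁻¹, mul_assoc t0⁻¹, ih, mul_assoc, dl_t, inv_mul_cancel_left]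
    | pred n ih =>
      rw [zpow_sub_one, mul_inv_rev, ← mul_assoc, inv_inv, mul_assoc t0, mul_assoc t0, ih, mul_inv_eq_iff_eq_mul, dl_t, sub_add_cancel]
  have ab : ∀ g : G, Abelianization.of g = 1 → g ∈ commutator G := fun g => (QuotientGroup.eq_one_iff g).1
  have ak : ∀ n x, Abelianization.of (k n x) = Abelianization.of (κ x) := fun n x => by simp [hk]
  refine bad_of Θ (fun p q e => Subtype.ext (h1 (RegularWreathProduct.ext (funext fun i => congrFun e i.toAdd) (by rw [r, r]))))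
    (fun i p q => ⟨⟨k i ⁅p, q⁆, ab _ (by simp [ak, commutatorElement_def])⟩, funext fun j => by
      simp only [Θ, MonoidHom.mk'_apply, k1]; simp [MP_f02a84_al.dl, Pi.mulSingle_apply]⟩)
    ⟨k 0 u0 * k 1 u0⁻¹, ab _ (by simp [ak])⟩ ⟨k 1 u0 * k 2 u0⁻¹, ab _ (by simp [ak])⟩
    (funext fun j => by simp only [Θ, MonoidHom.mk'_apply, map_mul, k1]; simp [MP_f02a84_al.dl, Pi.mulSingle_apply])
    (funext fun j => by simp only [Θ, MonoidHom.mk'_apply, map_mul, k1]; simp [MP_f02a84_al.dl, Pi.mulSingle_apply]) fun z p q s e => ?_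
  have e1 : z.1 = k 0 (u0 ^ p) * k 1 (u0 ^ q) * k 2 (u0 ^ s) := h1 (RegularWreathProduct.ext (funext fun i => by
    refine (congrFun e i.toAdd).trans ?_
    obtain ⟨i, rfl⟩ := ofAdd.surjective i
    simp only [map_mul, k1]
    simp [MP_f02a84_al.dl, Pi.mulSingle_apply]) (by rw [r]; simp only [map_mul, k1]; simp [MP_f02a84_al.dl]))
  have e2 : χ z = 1 := Abelianization.commutator_subset_ker χ z.2
  simp only [e1, hk, map_mul, map_inv, map_zpow, inv_mul_cancel_comm, h4] at e2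
  simpa using congrArg toAdd e2

end Pool.Agent.H.MP_8a4945_al
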